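import Mathlib

/-!
# Exterior determination for bounded measurable fractional conductivities
-/

set_option autoImplicit false

open Filter Topology Set MeasureTheory Metric
open scoped ContDiff ENNReal

namespace Pool.Agent.Results.MP_cfec03_an.ExteriorDetermination

/-- `ℝⁿ`. -/
abbrev E (n : ℕ) := EuclideanSpace ℝ (Fin n)

variable {n : ℕ} {s : ℝ}

/-- The constant `C_{n,s}`. -/
noncomputable def Cns (n : ℕ) (s : ℝ) : ℝ :=
  4 ^ s * Real.Gamma (n / 2 + s) / (Real.pi ^ ((n : ℝ) / 2) * |Real.Gamma (-s)|)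

/-- Test functions `φ ∈ C_c^∞(U)`. -/
structure IsTest (U : Set (E n)) (φ : E n → ℝ) : Prop where
  smooth : ContDiff ℝ ∞ φ
  compact : HasCompactSupport φ
  subset : tsupport φ ⊆ U

/-- Membership in `H^s(ℝⁿ)`, `0 < s < 1`: `u ∈ L²` with finite Gagliardo seminorm. -/
structure MemHs (s : ℝ) (u : E n → ℝ) : Prop where
  memLp : MemLp u 2
  gagliardo : Integrable fun p : E n × E n => (u p.1 - u p.2) ^ 2 / ‖p.1 - p.2‖ ^ (n + 2 * s)

/-- The square of the `H^s` norm. -/
noncomputable def hsNormSq (s : ℝ) (u : E n → ℝ) : ℝ :=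
  (∫ x, u x ^ 2) + ∫ p : E n × E n, (u p.1 - u p.2) ^ 2 / ‖p.1 - p.2‖ ^ (n + 2 * s)

/-- Membership in `H̃^s(Ω)`, the closure of `C_c^∞(Ω)` in `H^s(ℝⁿ)`. -/
structure MemTilde (s : ℝ) (Ω : Set (E n)) (u : E n → ℝ) : Prop where
  memHs : MemHs s u
  approx : ∃ φ : ℕ → E n → ℝ, (∀ k, IsTest Ω (φ k)) ∧
    Tendsto (fun k => hsNormSq s fun x => u x - φ k x) atTop (𝓝 0)

/-- The bilinear form `B_γ(u, φ)`. -/
noncomputable def B (s : ℝ) (γ : E n → ℝ) (u φ : E n → ℝ) : ℝ :=
  Cns n s / 2 * ∫ p : E n × E n, √(γ p.1) * √(γ p.2) / ‖p.1 - p.2‖ ^ (n + 2 * s) *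
    ((u p.1 - u p.2) * (φ p.1 - φ p.2))

/-- `γ ∈ L^∞(ℝⁿ)` is uniformly elliptic. -/
structure UniformlyElliptic (γ : E n → ℝ) : Prop where
  aestronglyMeasurable : AEStronglyMeasurable γ
  bounds : ∃ c₀ c₁ : ℝ, 0 < c₀ ∧ c₀ < c₁ ∧ ∀ᵐ x, c₀ ≤ γ x ∧ γ x ≤ c₁

/-- `u` is the weak solution of the fractional conductivity equation in `Ω` with exterior value
`f`. -/
structure IsSol (s : ℝ) (Ω : Set (E n)) (γ : E n → ℝ) (f u : E n → ℝ) : Prop where
  memHs : MemHs s u
  exterior : MemTilde s Ω fun x => u x - f x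
  weak : ∀ φ, IsTest Ω φ → B s γ u φ = 0

/-- `Ω` is bounded in one direction. -/
def BoundedInOneDirection (Ω : Set (E n)) : Prop :=
  ∃ (e : E n) (a b : ℝ), ‖e‖ = 1 ∧ a < b ∧ Ω ⊆ {x | a < inner ℝ x e ∧ inner ℝ x e < b}

lemma Cns_pos (hn : 1 ≤ n) (hs0 : 0 < s) (hs1 : s < 1) : 0 < Cns n s := by
  unfold Cns
  have h1 : 0 < Real.Gamma (n / 2 + s) := Real.Gamma_pos_of_pos (by positivity)
  have h2 : Real.Gamma (-s) ≠ 0 := by
    apply Real.Gamma_ne_zero
    intro m hm
    have hm' : s = m := by linarith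
    rcases Nat.eq_zero_or_pos m with h | h
    · rw [h] at hm'; norm_num at hm'; linarith
    · have : (1 : ℝ) ≤ m := by exact_mod_cast h
      linarith
  have h3 : 0 < |Real.Gamma (-s)| := abs_pos.2 h2
  positivity

/-! ### Integrability of the Gagliardo kernel of test functions -/

section Kernel

lemma measurable_normpow : Measurable fun p : E n × E n => ‖p.1 - p.2‖ ^ ((n : ℝ) + 2 * s) := by
  fun_prop

/-- The radial majorant. -/
noncomputable def mm (n : ℕ) (s L M : ℝ) (z : E n) : ℝ :=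
  min (L ^ 2 * ‖z‖ ^ 2) (4 * M ^ 2) / ‖z‖ ^ ((n : ℝ) + 2 * s)

lemma integrable_mm (hn : 1 ≤ n) (hs0 : 0 < s) (hs1 : s < 1) (L M : ℝ) :
    Integrable (mm n s L M) := by
  have hmeas : Measurable (mm n s L M) := by
    unfold mm
    fun_prop
  have h1 : IntegrableOn (mm n s L M) (ball 0 1) := by
    refine integrableOn_ball_of_norm_le_rpow (C := L ^ 2) (α := n + 2 * s - 2) ?_ ?_ ?_ ?_
    · simpa using hn
    · simp only [finrank_euclideanSpace, Fintype.card_fin]; linarith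
    · refine Eventually.of_forall fun z => ?_
      have h0 : 0 ≤ min (L ^ 2 * ‖z‖ ^ 2) (4 * M ^ 2) := by positivity
      rw [mm, norm_div, Real.norm_eq_abs, abs_of_nonneg h0, Real.norm_eq_abs,
        abs_of_nonneg (by positivity)]
      rcases eq_or_ne z 0 with hz | hz
      · rw [hz, norm_zero]
        simp only [ne_eq, OfNat.ofNat_ne_zero, not_false_eq_true, zero_pow, mul_zero]
        rw [min_eq_left (by positivity), zero_div]
        positivity
      · have hz' : 0 < ‖z‖ := norm_pos_iff.2 hz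
        calc min (L ^ 2 * ‖z‖ ^ 2) (4 * M ^ 2) / ‖z‖ ^ ((n : ℝ) + 2 * s) ≤
            (L ^ 2 * ‖z‖ ^ 2) / ‖z‖ ^ ((n : ℝ) + 2 * s) := by
              gcongr
              exact min_le_left _ _
          _ = L ^ 2 * ‖z‖ ^ (-((n : ℝ) + 2 * s - 2)) := by
            rw [mul_div_assoc, ← Real.rpow_natCast ‖z‖ 2, ← Real.rpow_sub hz']
            congr 2
            push_cast
            ring
    · exact hmeas.aestronglyMeasurable
  have h2 : IntegrableOn (mm n s L M) (ball 0 1)ᶜ := by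
    have hint : Integrable (fun z : E n => 4 * M ^ 2 * 2 ^ ((n : ℝ) + 2 * s) *
        (1 + ‖z‖) ^ (-((n : ℝ) + 2 * s))) := by
      refine Integrable.const_mul ?_ _
      apply integrable_one_add_norm
      simp only [finrank_euclideanSpace, Fintype.card_fin]
      linarith
    refine Integrable.mono' hint.integrableOn hmeas.aestronglyMeasurable ?_
    filter_upwards [ae_restrict_mem measurableSet_ball.compl] with z hz
    have hz1 : 1 ≤ ‖z‖ := by simpa using hz
    have hz' : 0 < ‖z‖ := by linarith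
    have h0 : 0 ≤ min (L ^ 2 * ‖z‖ ^ 2) (4 * M ^ 2) := by positivity
    rw [mm, norm_div, Real.norm_eq_abs, abs_of_nonneg h0, Real.norm_eq_abs,
        abs_of_nonneg (by positivity)]
    have h3 : (1 + ‖z‖) ^ ((n : ℝ) + 2 * s) ≤ 2 ^ ((n : ℝ) + 2 * s) * ‖z‖ ^ ((n : ℝ) + 2 * s) := by
      rw [← Real.mul_rpow (by norm_num) hz'.le]
      apply Real.rpow_le_rpow (by positivity) (by linarith) (by positivity)
    rw [Real.rpow_neg (by positivity), ← div_eq_mul_inv,
      div_le_div_iff₀ (by positivity) (by positivity)]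
    calc min (L ^ 2 * ‖z‖ ^ 2) (4 * M ^ 2) * (1 + ‖z‖) ^ ((n : ℝ) + 2 * s) ≤
        (4 * M ^ 2) * (2 ^ ((n : ℝ) + 2 * s) * ‖z‖ ^ ((n : ℝ) + 2 * s)) := by
          gcongr
          exact min_le_right _ _
      _ = _ := by ring
  have := h1.union h2
  rwa [union_compl_self, integrableOn_univ] at this

/-- The function `(x, y) ↦ a(x) b(x - y)` is integrable. -/
lemma integrable_prod_left {a b : E n → ℝ} (ha : Integrable a) (hb : Integrable b)
    (heven : ∀ z, b (-z) = b z) : Integrable fun p : E n × E n => a p.1 * b (p.1 - p.2) := by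
  have h1 := (ha.convolution_integrand (ContinuousLinearMap.mul ℝ ℝ) hb).swap
  refine h1.congr (Eventually.of_forall fun p => ?_)
  simp only [Function.comp, Prod.fst_swap, Prod.snd_swap, ContinuousLinearMap.mul_apply']
  rw [← heven (p.2 - p.1), neg_sub]

lemma integrable_prod_right {a b : E n → ℝ} (ha : Integrable a) (hb : Integrable b) :
    Integrable fun p : E n × E n => a p.2 * b (p.1 - p.2) :=
  ha.convolution_integrand (ContinuousLinearMap.mul ℝ ℝ) hb

lemma test_bounds {U : Set (E n)} {φ : E n → ℝ} (hφ : IsTest U φ) :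
    ∃ L M R : ℝ, 0 ≤ L ∧ 0 ≤ M ∧ 0 ≤ R ∧ (∀ x y, |φ x - φ y| ≤ L * ‖x - y‖) ∧ (∀ x, |φ x| ≤ M) ∧
      ∀ x, φ x ≠ 0 → x ∈ closedBall (0 : E n) R := by
  obtain ⟨M, hM⟩ := hφ.compact.exists_bound_of_continuous hφ.smooth.continuous
  have h1 : ContDiff ℝ 1 φ := hφ.smooth.of_le (by simp)
  obtain ⟨L, hL⟩ := h1.lipschitzWith_of_hasCompactSupport hφ.compact one_ne_zero
  obtain ⟨R, hR⟩ := hφ.compact.isCompact.isBounded.subset_closedBall (0 : E n)
  refine ⟨L, M, max R 0, L.2, (norm_nonneg _).trans (hM 0), le_max_right _ _, fun x y => ?_, hM,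
    fun x hx => ?_⟩
  · have := hL.dist_le_mul x y
    rwa [Real.dist_eq, dist_eq_norm] at this
  · exact closedBall_subset_closedBall (le_max_left _ _) (hR (subset_tsupport φ hx))

lemma test_gagliardo (hn : 1 ≤ n) (hs0 : 0 < s) (hs1 : s < 1) {U : Set (E n)} {φ : E n → ℝ}
    (hφ : IsTest U φ) :
    Integrable fun p : E n × E n => (φ p.1 - φ p.2) ^ 2 / ‖p.1 - p.2‖ ^ (n + 2 * s) := by
  obtain ⟨L, M, R, hL0, hM0, hR0, hL, hM, hR⟩ := test_bounds hφ
  set K : E n → ℝ := (closedBall (0 : E n) R).indicator fun _ => (1 : ℝ) with hK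
  have hKi : Integrable K := by
    rw [hK, integrable_indicator_iff measurableSet_closedBall]
    exact integrableOn_const (measure_closedBall_lt_top.ne)
  have heven : ∀ z : E n, mm n s L M (-z) = mm n s L M z := fun z => by simp [mm]
  have hb := integrable_mm (L := L) (M := M) hn hs0 hs1
  have hdom := (integrable_prod_left hKi hb heven).add (integrable_prod_right hKi hb)
  have hc := hφ.smooth.continuous
  refine Integrable.mono' hdom ?_ (Eventually.of_forall fun p => ?_)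
  · apply Measurable.aestronglyMeasurable
    have := hc.measurable
    fun_prop
  · rw [norm_div, Real.norm_eq_abs, abs_of_nonneg (sq_nonneg _), Real.norm_eq_abs,
      abs_of_nonneg (by positivity)]
    have h1 : (φ p.1 - φ p.2) ^ 2 ≤ min (L ^ 2 * ‖p.1 - p.2‖ ^ 2) (4 * M ^ 2) := by
      apply le_min
      · rw [← mul_pow, ← sq_abs]
        gcongr
        exact hL _ _
      · have a1 := abs_le.1 (hM p.1)
        have a2 := abs_le.1 (hM p.2)
        have : |φ p.1 - φ p.2| ≤ 2 * M := by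
          rw [abs_le]; constructor <;> linarith [a1.1, a1.2, a2.1, a2.2]
        rw [← sq_abs, show 4 * M ^ 2 = (2 * M) ^ 2 by ring]
        gcongr
    have h2 : (φ p.1 - φ p.2) ^ 2 / ‖p.1 - p.2‖ ^ ((n : ℝ) + 2 * s) ≤ mm n s L M (p.1 - p.2) := by
      unfold mm
      gcongr
    have h3 : 0 ≤ mm n s L M (p.1 - p.2) := le_trans (by positivity) h2
    simp only [Pi.add_apply]
    have hK0 : ∀ x, 0 ≤ K x := fun x => indicator_nonneg (fun _ _ => zero_le_one) x
    by_cases hx : φ p.1 = 0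
    · by_cases hy : φ p.2 = 0
      · rw [hx, hy]
        simp only [sub_self, ne_eq, OfNat.ofNat_ne_zero, not_false_eq_true, zero_pow, zero_div]
        have := hK0 p.1
        have := hK0 p.2
        positivity
      · have : K p.2 = 1 := by rw [hK, indicator_of_mem (hR _ hy)]
        rw [this, one_mul]
        have := mul_nonneg (hK0 p.1) h3
        linarith
    · have : K p.1 = 1 := by rw [hK, indicator_of_mem (hR _ hx)]
      rw [this, one_mul]
      have := mul_nonneg (hK0 p.2) h3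
      linarith

lemma test_memHs (hn : 1 ≤ n) (hs0 : 0 < s) (hs1 : s < 1) {U : Set (E n)} {φ : E n → ℝ}
    (hφ : IsTest U φ) : MemHs s φ :=
  ⟨hφ.smooth.continuous.memLp_of_hasCompactSupport hφ.compact, test_gagliardo hn hs0 hs1 hφ⟩

end Kernel

/-! ### The bilinear form -/

section Form

variable {γ u v w : E n → ℝ}

/-- The weight of the form. -/
noncomputable def wt (s : ℝ) (γ : E n → ℝ) (p : E n × E n) : ℝ :=
  √(γ p.1) * √(γ p.2) / ‖p.1 - p.2‖ ^ (n + 2 * s)

lemma B_eq (s : ℝ) (γ u v : E n → ℝ) : B s γ u v =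
    Cns n s / 2 * ∫ p : E n × E n, wt s γ p * ((u p.1 - u p.2) * (v p.1 - v p.2)) := rfl

lemma ae_fst {P : E n → Prop} (h : ∀ᵐ x, P x) : ∀ᵐ p : E n × E n, P p.1 :=
  Measure.quasiMeasurePreserving_fst.ae h

lemma ae_snd {P : E n → Prop} (h : ∀ᵐ x, P x) : ∀ᵐ p : E n × E n, P p.2 :=
  Measure.quasiMeasurePreserving_snd.ae h

/-- Bounds of the weight. -/
lemma wt_bounds {c₀ c₁ : ℝ} (hc : 0 < c₀) (h : ∀ᵐ x, c₀ ≤ γ x ∧ γ x ≤ c₁) :
    ∀ᵐ p : E n × E n, c₀ / ‖p.1 - p.2‖ ^ (n + 2 * s) ≤ wt s γ p ∧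
      wt s γ p ≤ c₁ / ‖p.1 - p.2‖ ^ (n + 2 * s) := by
  filter_upwards [ae_fst h, ae_snd h] with p h1 h2
  have hc1 : 0 ≤ c₁ := by linarith [h1.1, h1.2]
  have e1 : √c₀ ≤ √(γ p.1) := Real.sqrt_le_sqrt h1.1
  have e2 : √c₀ ≤ √(γ p.2) := Real.sqrt_le_sqrt h2.1
  have e3 : √(γ p.1) ≤ √c₁ := Real.sqrt_le_sqrt h1.2
  have e4 : √(γ p.2) ≤ √c₁ := Real.sqrt_le_sqrt h2.2
  have e5 : √c₀ * √c₀ = c₀ := Real.mul_self_sqrt hc.le
  have e6 : √c₁ * √c₁ = c₁ := Real.mul_self_sqrt hc1
  unfold wt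
  constructor
  · gcongr
    calc c₀ = √c₀ * √c₀ := e5.symm
      _ ≤ _ := by gcongr
  · gcongr
    calc √(γ p.1) * √(γ p.2) ≤ √c₁ * √c₁ := by gcongr
      _ = c₁ := e6

lemma wt_nonneg (p : E n × E n) : 0 ≤ wt s γ p := by unfold wt; positivity

lemma wt_aesm (h : AEStronglyMeasurable γ) :
    AEStronglyMeasurable (wt s γ) (volume : Measure (E n × E n)) := by
  have h1 : AEStronglyMeasurable (fun p : E n × E n => √(γ p.1)) volume :=
    Real.continuous_sqrt.comp_aestronglyMeasurable h.comp_fst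
  have h2 : AEStronglyMeasurable (fun p : E n × E n => √(γ p.2)) volume :=
    Real.continuous_sqrt.comp_aestronglyMeasurable h.comp_snd
  have h3 : Measurable fun p : E n × E n => (‖p.1 - p.2‖ ^ ((n : ℝ) + 2 * s))⁻¹ := by fun_prop
  have := (h1.mul h2).mul h3.aestronglyMeasurable
  refine this.congr (Eventually.of_forall fun p => ?_)
  simp [wt, div_eq_mul_inv]

lemma diff_aesm (h : AEStronglyMeasurable u) :
    AEStronglyMeasurable (fun p : E n × E n => u p.1 - u p.2) volume :=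
  h.comp_fst.sub h.comp_snd

lemma MemHs.aesm (h : MemHs s u) : AEStronglyMeasurable u := h.memLp.1

lemma MemHs.sub (hu : MemHs s u) (hv : MemHs s v) : MemHs s fun x => u x - v x := by
  refine ⟨hu.memLp.sub hv.memLp, ?_⟩
  have hdom := (hu.gagliardo.const_mul 2).add (hv.gagliardo.const_mul 2)
  refine Integrable.mono' hdom ?_ (Eventually.of_forall fun p => ?_)
  · have h1 := (diff_aesm (hu.aesm.sub hv.aesm)).pow 2
    have h3 : Measurable fun p : E n × E n => (‖p.1 - p.2‖ ^ ((n : ℝ) + 2 * s))⁻¹ := by fun_prop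
    exact (h1.mul h3.aestronglyMeasurable).congr (Eventually.of_forall fun p => by
      simp [div_eq_mul_inv])
  · rw [norm_div, Real.norm_eq_abs, abs_of_nonneg (sq_nonneg _), Real.norm_eq_abs,
      abs_of_nonneg (by positivity)]
    simp only [Pi.add_apply]
    rw [← mul_div_assoc, ← mul_div_assoc, ← add_div]
    gcongr
    nlinarith [sq_nonneg ((u p.1 - u p.2) + (v p.1 - v p.2))]

lemma sq_integrable (hγ : UniformlyElliptic γ) (hu : MemHs s u) :
    Integrable fun p : E n × E n => wt s γ p * (u p.1 - u p.2) ^ 2 := by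
  obtain ⟨c₀, c₁, hc0, hc01, hb⟩ := hγ.bounds
  refine Integrable.mono' (hu.gagliardo.const_mul c₁)
    ((wt_aesm hγ.aestronglyMeasurable).mul ((diff_aesm hu.aesm).pow 2)) ?_
  filter_upwards [wt_bounds (s := s) hc0 hb] with p hp
  rw [norm_mul, Real.norm_eq_abs, abs_of_nonneg (wt_nonneg p), Real.norm_eq_abs,
    abs_of_nonneg (sq_nonneg _)]
  calc wt s γ p * (u p.1 - u p.2) ^ 2 ≤ c₁ / ‖p.1 - p.2‖ ^ ((n : ℝ) + 2 * s) * (u p.1 - u p.2) ^ 2 := by
        gcongr
        exact hp.2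
    _ = _ := by ring

lemma form_integrable (hγ : UniformlyElliptic γ) (hu : MemHs s u) (hv : MemHs s v) :
    Integrable fun p : E n × E n => wt s γ p * ((u p.1 - u p.2) * (v p.1 - v p.2)) := by
  refine Integrable.mono' ((sq_integrable hγ hu).add (sq_integrable hγ hv))
    ((wt_aesm hγ.aestronglyMeasurable).mul ((diff_aesm hu.aesm).mul (diff_aesm hv.aesm)))
    (Eventually.of_forall fun p => ?_)
  rw [norm_mul, Real.norm_eq_abs, abs_of_nonneg (wt_nonneg p), Real.norm_eq_abs]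
  simp only [Pi.add_apply]
  rw [← mul_add]
  apply mul_le_mul_of_nonneg_left _ (wt_nonneg p)
  rw [abs_le]
  constructor <;> nlinarith [sq_nonneg ((u p.1 - u p.2) + (v p.1 - v p.2)),
    sq_nonneg ((u p.1 - u p.2) - (v p.1 - v p.2)), sq_nonneg (u p.1 - u p.2),
    sq_nonneg (v p.1 - v p.2)]

lemma B_symm : B s γ u v = B s γ v u := by
  rw [B_eq, B_eq]
  congr 2
  funext p
  ring

lemma B_sub_right (hγ : UniformlyElliptic γ) (hu : MemHs s u) (hv : MemHs s v) (hw : MemHs s w) :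
    B s γ u (fun x => v x - w x) = B s γ u v - B s γ u w := by
  rw [B_eq, B_eq, B_eq, ← mul_sub, ← integral_sub (form_integrable hγ hu hv)
    (form_integrable hγ hu hw)]
  congr 2
  funext p
  ring

lemma B_sub_left (hγ : UniformlyElliptic γ) (hu : MemHs s u) (hv : MemHs s v) (hw : MemHs s w) :
    B s γ (fun x => v x - w x) u = B s γ v u - B s γ w u := by
  rw [B_symm, B_sub_right hγ hu hv hw, B_symm, B_symm (u := u) (v := w)]

lemma B_self_nonneg (hC : 0 ≤ Cns n s) : 0 ≤ B s γ u u := by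
  rw [B_eq]
  apply mul_nonneg (by positivity)
  exact integral_nonneg fun p => mul_nonneg (wt_nonneg p) (mul_self_nonneg _)

/-- Weighted Young inequality for the form. -/
lemma B_young (hC : 0 ≤ Cns n s) (hγ : UniformlyElliptic γ) (hu : MemHs s u) (hv : MemHs s v)
    {ε : ℝ} (hε : 0 < ε) : |B s γ u v| ≤ ε / 2 * B s γ u u + 1 / (2 * ε) * B s γ v v := by
  have h1 : |∫ p : E n × E n, wt s γ p * ((u p.1 - u p.2) * (v p.1 - v p.2))| ≤
      ε / 2 * (∫ p : E n × E n, wt s γ p * ((u p.1 - u p.2) * (u p.1 - u p.2))) +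
      1 / (2 * ε) * ∫ p : E n × E n, wt s γ p * ((v p.1 - v p.2) * (v p.1 - v p.2)) := by
    rw [← integral_const_mul, ← integral_const_mul, ← integral_add
      ((form_integrable hγ hu hu).const_mul _) ((form_integrable hγ hv hv).const_mul _)]
    rw [← Real.norm_eq_abs]
    refine norm_integral_le_of_norm_le
      (((form_integrable hγ hu hu).const_mul _).add ((form_integrable hγ hv hv).const_mul _))
      (Eventually.of_forall fun p => ?_)
    rw [norm_mul, Real.norm_eq_abs, abs_of_nonneg (wt_nonneg p), Real.norm_eq_abs]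
    have h2 : |(u p.1 - u p.2) * (v p.1 - v p.2)| ≤
        ε / 2 * ((u p.1 - u p.2) * (u p.1 - u p.2)) +
        1 / (2 * ε) * ((v p.1 - v p.2) * (v p.1 - v p.2)) := by
      generalize u p.1 - u p.2 = a
      generalize v p.1 - v p.2 = b
      have h3 : 0 ≤ (ε * |a| - |b|) ^ 2 := sq_nonneg _
      have h4 : |a| ^ 2 = a * a := by rw [sq_abs]; ring
      have h5 : |b| ^ 2 = b * b := by rw [sq_abs]; ring
      rw [abs_mul]
      have h6 : |a| * |b| = ε / 2 * |a| ^ 2 + 1 / (2 * ε) * |b| ^ 2 -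
          1 / (2 * ε) * (ε * |a| - |b|) ^ 2 := by
        field_simp
        ring
      rw [h6, h4, h5]
      have : 0 ≤ 1 / (2 * ε) * (ε * |a| - |b|) ^ 2 := by positivity
      linarith
    calc wt s γ p * |(u p.1 - u p.2) * (v p.1 - v p.2)| ≤ wt s γ p *
        (ε / 2 * ((u p.1 - u p.2) * (u p.1 - u p.2)) +
        1 / (2 * ε) * ((v p.1 - v p.2) * (v p.1 - v p.2))) :=
          mul_le_mul_of_nonneg_left h2 (wt_nonneg p)
      _ = _ := by ring
  rw [B_eq, B_eq, B_eq, abs_mul, abs_of_nonneg (by positivity : 0 ≤ Cns n s / 2)]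
  calc _ ≤ Cns n s / 2 * (ε / 2 * (∫ p : E n × E n, wt s γ p * ((u p.1 - u p.2) * (u p.1 - u p.2))) +
      1 / (2 * ε) * ∫ p : E n × E n, wt s γ p * ((v p.1 - v p.2) * (v p.1 - v p.2))) := by gcongr
    _ = _ := by ring

/-- The form is controlled by the `H^s` norm. -/
lemma B_le_hs (hC : 0 ≤ Cns n s) {c₀ c₁ : ℝ} (hc : 0 < c₀) (hγ : UniformlyElliptic γ)
    (h : ∀ᵐ x, c₀ ≤ γ x ∧ γ x ≤ c₁) (hu : MemHs s u) :
    B s γ u u ≤ Cns n s / 2 * c₁ * hsNormSq s u := by
  have h1 : (∫ p : E n × E n, wt s γ p * ((u p.1 - u p.2) * (u p.1 - u p.2))) ≤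
      ∫ p : E n × E n, c₁ * ((u p.1 - u p.2) ^ 2 / ‖p.1 - p.2‖ ^ (n + 2 * s)) := by
    refine integral_mono_ae (form_integrable hγ hu hu) (hu.gagliardo.const_mul c₁) ?_
    filter_upwards [wt_bounds (s := s) hc h] with p hp
    calc wt s γ p * ((u p.1 - u p.2) * (u p.1 - u p.2)) ≤
        c₁ / ‖p.1 - p.2‖ ^ ((n : ℝ) + 2 * s) * ((u p.1 - u p.2) * (u p.1 - u p.2)) :=
          mul_le_mul_of_nonneg_right hp.2 (mul_self_nonneg _)
      _ = _ := by ring
  rw [integral_const_mul] at h1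
  have hc1 : 0 ≤ c₁ := by
    obtain ⟨x, hx⟩ := h.exists
    linarith [hx.1, hx.2]
  have h2 : 0 ≤ ∫ x, u x ^ 2 := integral_nonneg fun x => sq_nonneg _
  rw [B_eq, hsNormSq]
  calc _ ≤ Cns n s / 2 * (c₁ * ∫ p : E n × E n, (u p.1 - u p.2) ^ 2 / ‖p.1 - p.2‖ ^ (n + 2 * s)) := by
        gcongr
    _ ≤ Cns n s / 2 * (c₁ * ((∫ x, u x ^ 2) +
        ∫ p : E n × E n, (u p.1 - u p.2) ^ 2 / ‖p.1 - p.2‖ ^ (n + 2 * s))) := by
        gcongr
        linarith
    _ = _ := by ring

end Form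

/-! ### Variational facts -/

section Variational

variable {γ f u w : E n → ℝ} {Ω : Set (E n)}

lemma hs_nonneg (u : E n → ℝ) : 0 ≤ hsNormSq s u := by
  unfold hsNormSq
  have h1 : 0 ≤ ∫ x, u x ^ 2 := integral_nonneg fun x => sq_nonneg _
  have h2 : 0 ≤ ∫ p : E n × E n, (u p.1 - u p.2) ^ 2 / ‖p.1 - p.2‖ ^ (n + 2 * s) :=
    integral_nonneg fun p => by positivity
  linarith

lemma tilde_orth (hn : 1 ≤ n) (hs0 : 0 < s) (hs1 : s < 1) (hγ : UniformlyElliptic γ)
    (hu : MemHs s u) (horth : ∀ φ, IsTest Ω φ → B s γ u φ = 0) (hw : MemTilde s Ω w) :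
    B s γ u w = 0 := by
  obtain ⟨φ, hφ, hlim⟩ := hw.approx
  obtain ⟨c₀, c₁, hc0, hc01, hb⟩ := hγ.bounds
  have hC := (Cns_pos hn hs0 hs1).le
  have h1 : ∀ ε : ℝ, 0 < ε → |B s γ u w| ≤ ε / 2 * B s γ u u := by
    intro ε hε
    have h2 : ∀ k, |B s γ u w| ≤ ε / 2 * B s γ u u +
        1 / (2 * ε) * (Cns n s / 2 * c₁ * hsNormSq s fun x => w x - φ k x) := by
      intro k
      have hφk := test_memHs hn hs0 hs1 (hφ k)
      have hd := hw.memHs.sub hφk
      have e : B s γ u w = B s γ u fun x => w x - φ k x := by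
        rw [B_sub_right hγ hu hw.memHs hφk, horth _ (hφ k), sub_zero]
      rw [e]
      refine (B_young hC hγ hu hd hε).trans ?_
      gcongr
      exact B_le_hs hC hc0 hγ hb hd
    have h3 : Tendsto (fun k => ε / 2 * B s γ u u +
        1 / (2 * ε) * (Cns n s / 2 * c₁ * hsNormSq s fun x => w x - φ k x)) atTop
        (𝓝 (ε / 2 * B s γ u u + 1 / (2 * ε) * (Cns n s / 2 * c₁ * 0))) :=
      ((hlim.const_mul _).const_mul _).const_add _
    have := ge_of_tendsto' h3 h2
    simpa using this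
  have h2 : |B s γ u w| ≤ 0 := by
    have h3 : Tendsto (fun ε : ℝ => ε / 2 * B s γ u u) (𝓝[>] 0) (𝓝 (0 / 2 * B s γ u u)) :=
      ((tendsto_nhdsWithin_of_tendsto_nhds tendsto_id).div_const 2).mul_const _
    rw [zero_div, zero_mul] at h3
    refine ge_of_tendsto h3 ?_
    filter_upwards [self_mem_nhdsWithin] with ε hε using h1 ε hε
  exact abs_eq_zero.1 (le_antisymm h2 (abs_nonneg _))

lemma sq_integrable_of_memLp {u : E n → ℝ} (hu : MemLp u 2) : Integrable fun x => u x ^ 2 :=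
  hu.integrable_sq

lemma tilde_zero (hn : 1 ≤ n) (hs0 : 0 < s) (hs1 : s < 1) (hΩ : IsOpen Ω)
    (hw : MemTilde s Ω w) : ∀ᵐ x, x ∉ Ω → w x = 0 := by
  obtain ⟨φ, hφ, hlim⟩ := hw.approx
  have hm : MeasurableSet Ωᶜ := hΩ.measurableSet.compl
  have h1 : ∀ k, ∫ x in Ωᶜ, w x ^ 2 ≤ hsNormSq s fun x => w x - φ k x := by
    intro k
    have hd := hw.memHs.sub (test_memHs hn hs0 hs1 (hφ k))
    have h2 : ∫ x in Ωᶜ, w x ^ 2 = ∫ x in Ωᶜ, (w x - φ k x) ^ 2 := by
      refine setIntegral_congr_fun hm fun x hx => ?_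
      have : φ k x = 0 := image_eq_zero_of_notMem_tsupport fun h => hx ((hφ k).subset h)
      rw [this, sub_zero]
    rw [h2]
    have h3 : ∫ x in Ωᶜ, (w x - φ k x) ^ 2 ≤ ∫ x, (w x - φ k x) ^ 2 :=
      setIntegral_le_integral hd.memLp.integrable_sq (Eventually.of_forall fun x => sq_nonneg _)
    have h4 : 0 ≤ ∫ p : E n × E n, ((w p.1 - φ k p.1) - (w p.2 - φ k p.2)) ^ 2 /
        ‖p.1 - p.2‖ ^ (n + 2 * s) := integral_nonneg fun p => by positivity
    unfold hsNormSq
    linarith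
  have h5 : ∫ x in Ωᶜ, w x ^ 2 ≤ 0 := ge_of_tendsto' hlim h1
  have h6 : ∫ x in Ωᶜ, w x ^ 2 = 0 := le_antisymm h5 (integral_nonneg fun x => sq_nonneg _)
  rw [integral_eq_zero_iff_of_nonneg (fun x => sq_nonneg _)
    hw.memHs.memLp.integrable_sq.integrableOn] at h6
  rw [Filter.EventuallyEq, ae_restrict_iff' hm] at h6
  filter_upwards [h6] with x hx hxΩ
  have := hx hxΩ
  simpa using this

/-- The tail kernel. -/
noncomputable def kap (n : ℕ) (s d : ℝ) (z : E n) : ℝ :=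
  if d ≤ ‖z‖ then (‖z‖ ^ ((n : ℝ) + 2 * s))⁻¹ else 0

lemma kap_nonneg (d : ℝ) (z : E n) : 0 ≤ kap n s d z := by
  unfold kap; split_ifs <;> positivity

lemma integrable_kap (hn : 1 ≤ n) (hs0 : 0 < s) {d : ℝ} (hd : 0 < d) : Integrable (kap n s d) := by
  have hmeas : Measurable (kap n s d) := by
    unfold kap
    exact Measurable.ite (measurableSet_le measurable_const measurable_norm) (by fun_prop)
      measurable_const
  have hint : Integrable (fun z : E n => (1 + 1 / d) ^ ((n : ℝ) + 2 * s) *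
      (1 + ‖z‖) ^ (-((n : ℝ) + 2 * s))) := by
    refine Integrable.const_mul ?_ _
    apply integrable_one_add_norm
    simp only [finrank_euclideanSpace, Fintype.card_fin]
    linarith
  refine Integrable.mono' hint hmeas.aestronglyMeasurable (Eventually.of_forall fun z => ?_)
  rw [Real.norm_eq_abs, abs_of_nonneg (kap_nonneg d z), kap]
  split_ifs with h
  · have hz : 0 < ‖z‖ := by linarith
    have h1 : (1 + ‖z‖) ≤ (1 + 1 / d) * ‖z‖ := by
      have : 1 ≤ 1 / d * ‖z‖ := by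
        rw [one_div_mul_eq_div, le_div_iff₀ hd]; linarith
      linarith
    rw [Real.rpow_neg (by positivity), ← div_eq_mul_inv, inv_eq_one_div,
      div_le_div_iff₀ (by positivity) (by positivity), one_mul,
      ← Real.mul_rpow (by positivity) hz.le]
    exact Real.rpow_le_rpow (by positivity) h1 (by positivity)
  · positivity

lemma integral_prod_right {a b : E n → ℝ} (ha : Integrable a) (hb : Integrable b) :
    ∫ p : E n × E n, a p.2 * b (p.1 - p.2) = (∫ x, a x) * ∫ x, b x := by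
  rw [Measure.volume_eq_prod, integral_prod_symm _ (integrable_prod_right ha hb)]
  have : ∀ y : E n, ∫ x : E n, a y * b (x - y) = a y * ∫ x, b x := by
    intro y
    rw [integral_const_mul, integral_sub_right_eq_self]
  simp_rw [this]
  rw [integral_mul_const]

lemma integral_prod_left {a b : E n → ℝ} (ha : Integrable a) (hb : Integrable b)
    (heven : ∀ z, b (-z) = b z) :
    ∫ p : E n × E n, a p.1 * b (p.1 - p.2) = (∫ x, a x) * ∫ x, b x := by
  rw [← integral_prod_right ha hb, Measure.volume_eq_prod, ← integral_prod_swap]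
  refine integral_congr_ae (Eventually.of_forall fun p => ?_)
  simp only [Prod.fst_swap, Prod.snd_swap]
  rw [← heven (p.2 - p.1), neg_sub]

/-- The energy of the correction `w = u - f`. -/
lemma correction_bound (hn : 1 ≤ n) (hs0 : 0 < s) (hs1 : s < 1) (hΩ : IsOpen Ω)
    (hγ : UniformlyElliptic γ) {c₀ c₁ : ℝ} (hc : 0 < c₀) (hb : ∀ᵐ x, c₀ ≤ γ x ∧ γ x ≤ c₁)
    {U : Set (E n)} (hf : IsTest U f) (hu : IsSol s Ω γ f u) {d : ℝ} (hd : 0 < d)
    (hsep : ∀ x, f x ≠ 0 → ∀ y ∈ Ω, d ≤ ‖x - y‖) :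
    B s γ u f = B s γ f f - B s γ (fun x => u x - f x) (fun x => u x - f x) ∧
    0 ≤ B s γ (fun x => u x - f x) (fun x => u x - f x) ∧
    B s γ (fun x => u x - f x) (fun x => u x - f x) ≤
      2 * Cns n s * c₁ * (∫ z, kap n s d z) * ∫ x, f x ^ 2 := by
  have hC := (Cns_pos hn hs0 hs1).le
  have hfs := test_memHs hn hs0 hs1 hf
  have hus := hu.memHs
  set w : E n → ℝ := fun x => u x - f x with hw
  have hws : MemHs s w := hus.sub hfs
  have horth : B s γ u w = 0 := tilde_orth hn hs0 hs1 hγ hus hu.weak hu.exterior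
  have e1 : B s γ w w = -B s γ f w := by
    have := B_sub_left hγ hws hus hfs
    rw [horth] at this
    rw [← hw] at this
    linarith
  have e2 : B s γ u w = B s γ u u - B s γ u f := B_sub_right hγ hus hus hfs
  have e3 : B s γ f w = B s γ f u - B s γ f f := B_sub_right hγ hfs hus hfs
  have e4 : B s γ f u = B s γ u f := B_symm
  refine ⟨by linarith, B_self_nonneg hC, ?_⟩
  -- the main estimate
  have hzero := tilde_zero hn hs0 hs1 hΩ hu.exterior
  have hkey : ∀ᵐ p : E n × E n, ‖p.1 - p.2‖ < d →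
      (f p.1 - f p.2) * (w p.1 - w p.2) = 0 := by
    filter_upwards [ae_fst hzero, ae_snd hzero] with p h1 h2 hp
    by_cases hx : f p.1 = 0
    · by_cases hy : f p.2 = 0
      · rw [hx, hy]; ring
      · have a1 : p.1 ∉ Ω := fun h => by
          have := hsep _ hy _ h
          rw [norm_sub_rev] at this
          linarith
        have a2 : p.2 ∉ Ω := fun h => by
          have := hsep _ hy _ h
          simp at this
          linarith
        have w1 : w p.1 = 0 := h1 a1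
        have w2 : w p.2 = 0 := h2 a2
        rw [w1, w2]; ring
    · have a1 : p.1 ∉ Ω := fun h => by
        have := hsep _ hx _ h
        simp at this
        linarith
      have a2 : p.2 ∉ Ω := fun h => by
        have := hsep _ hx _ h
        linarith
      have w1 : w p.1 = 0 := h1 a1
      have w2 : w p.2 = 0 := h2 a2
      rw [w1, w2]; ring
  have hc1 : 0 ≤ c₁ := by
    obtain ⟨x, hx⟩ := hb.exists
    linarith [hx.1, hx.2]
  have hfi : Integrable fun x => f x ^ 2 := hfs.memLp.integrable_sq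
  have hki := integrable_kap (s := s) hn hs0 hd
  have heven : ∀ z : E n, kap n s d (-z) = kap n s d z := fun z => by simp [kap]
  have hmaj1 := integrable_prod_left hfi hki heven
  have hmaj2 := integrable_prod_right hfi hki
  have hpt : ∀ᵐ p : E n × E n, -(wt s γ p * ((f p.1 - f p.2) * (w p.1 - w p.2))) ≤
      1 / 2 * (wt s γ p * ((w p.1 - w p.2) * (w p.1 - w p.2))) +
      c₁ * (f p.1 ^ 2 * kap n s d (p.1 - p.2) + f p.2 ^ 2 * kap n s d (p.1 - p.2)) := by
    filter_upwards [hkey, wt_bounds (s := s) hc hb] with p h1 h2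
    have hk0 := kap_nonneg (s := s) d (p.1 - p.2)
    have hw0 := wt_nonneg (s := s) (γ := γ) p
    by_cases hp : ‖p.1 - p.2‖ < d
    · rw [h1 hp, mul_zero, neg_zero]
      have := mul_self_nonneg (w p.1 - w p.2)
      positivity
    · have hk : kap n s d (p.1 - p.2) = (‖p.1 - p.2‖ ^ ((n : ℝ) + 2 * s))⁻¹ := by
        rw [kap, if_pos (not_lt.1 hp)]
      have h3 : wt s γ p ≤ c₁ * kap n s d (p.1 - p.2) := by
        rw [hk, ← div_eq_mul_inv]; exact h2.2
      have h4 : -((f p.1 - f p.2) * (w p.1 - w p.2)) ≤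
          1 / 2 * ((w p.1 - w p.2) * (w p.1 - w p.2)) + (f p.1 ^ 2 + f p.2 ^ 2) := by
        nlinarith [sq_nonneg ((f p.1 - f p.2) + (w p.1 - w p.2)), sq_nonneg (f p.1 + f p.2)]
      calc -(wt s γ p * ((f p.1 - f p.2) * (w p.1 - w p.2))) =
          wt s γ p * (-((f p.1 - f p.2) * (w p.1 - w p.2))) := by ring
        _ ≤ wt s γ p * (1 / 2 * ((w p.1 - w p.2) * (w p.1 - w p.2)) + (f p.1 ^ 2 + f p.2 ^ 2)) :=
          mul_le_mul_of_nonneg_left h4 hw0
        _ = 1 / 2 * (wt s γ p * ((w p.1 - w p.2) * (w p.1 - w p.2))) +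
            wt s γ p * (f p.1 ^ 2 + f p.2 ^ 2) := by ring
        _ ≤ 1 / 2 * (wt s γ p * ((w p.1 - w p.2) * (w p.1 - w p.2))) +
            (c₁ * kap n s d (p.1 - p.2)) * (f p.1 ^ 2 + f p.2 ^ 2) := by
          gcongr
        _ = _ := by ring
  have hmaj : Integrable fun p : E n × E n =>
      c₁ * (f p.1 ^ 2 * kap n s d (p.1 - p.2) + f p.2 ^ 2 * kap n s d (p.1 - p.2)) :=
    (hmaj1.add hmaj2).const_mul c₁
  have hint := integral_mono_ae (form_integrable hγ hfs hws).neg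
    (((form_integrable hγ hws hws).const_mul (1 / 2)).add hmaj) hpt
  simp only [Pi.add_apply, Pi.neg_apply] at hint
  rw [integral_neg, integral_add ((form_integrable hγ hws hws).const_mul (1 / 2)) hmaj,
    integral_const_mul, integral_const_mul, integral_add hmaj1 hmaj2, integral_prod_left hfi hki heven, integral_prod_right hfi hki] at hint
  have hB1 : B s γ w w ≤ 1 / 2 * B s γ w w +
      Cns n s / 2 * (c₁ * ((∫ x, f x ^ 2) * (∫ z, kap n s d z) +
        (∫ x, f x ^ 2) * (∫ z, kap n s d z))) := by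
    have h5 := mul_le_mul_of_nonneg_left hint (by positivity : 0 ≤ Cns n s / 2)
    calc B s γ w w = Cns n s / 2 *
        -(∫ p : E n × E n, wt s γ p * ((f p.1 - f p.2) * (w p.1 - w p.2))) := by
          rw [e1, B_eq]; ring
      _ ≤ _ := h5
      _ = _ := by rw [B_eq]; ring
  nlinarith

end Variational

/-! ### Scaling -/

section Scaling

lemma integral_scale {V : Type*} [NormedAddCommGroup V] [NormedSpace ℝ V] [FiniteDimensional ℝ V]
    [MeasurableSpace V] [BorelSpace V] (μ : Measure V) [μ.IsAddHaarMeasure] (F : V → ℝ) (c : V)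
    {ε : ℝ} (hε : 0 < ε) :
    ∫ P, F (c + ε • P) ∂μ = (ε ^ Module.finrank ℝ V)⁻¹ * ∫ P, F P ∂μ := by
  have h1 := Measure.integral_comp_smul μ (fun Q => F (c + Q)) ε
  rw [integral_add_left_eq_self (μ := μ) F c] at h1
  rw [h1, abs_of_pos (by positivity), smul_eq_mul]

/-- The concentrated test function. -/
noncomputable def fe (n : ℕ) (s : ℝ) (f : E n → ℝ) (x₀ : E n) (ε : ℝ) (x : E n) : ℝ :=
  ε ^ (-(((n : ℝ) - 2 * s) / 2)) * f (ε⁻¹ • (x - x₀))

lemma fe_apply (f : E n → ℝ) (x₀ : E n) {ε : ℝ} (hε : 0 < ε) (X : E n) :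
    fe n s f x₀ ε (x₀ + ε • X) = ε ^ (-(((n : ℝ) - 2 * s) / 2)) * f X := by
  rw [fe, add_sub_cancel_left, inv_smul_smul₀ hε.ne']

lemma integral_fe_sq (f : E n → ℝ) (x₀ : E n) {ε : ℝ} (hε : 0 < ε) :
    ∫ x, fe n s f x₀ ε x ^ 2 = ε ^ (2 * s) * ∫ x, f x ^ 2 := by
  have h1 := integral_scale volume (fun x => fe n s f x₀ ε x ^ 2) x₀ hε
  simp_rw [fe_apply f x₀ hε, mul_pow] at h1
  rw [integral_const_mul, finrank_euclideanSpace, Fintype.card_fin] at h1
  have h2 : 0 < ε ^ n := by positivity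
  have h3 : (ε ^ (-(((n : ℝ) - 2 * s) / 2))) ^ 2 * ε ^ n = ε ^ (2 * s) := by
    rw [← Real.rpow_natCast (ε ^ (-(((n : ℝ) - 2 * s) / 2))) 2, ← Real.rpow_mul hε.le,
      ← Real.rpow_natCast ε n, ← Real.rpow_add hε]
    congr 1
    push_cast
    ring
  have h4 : ∫ x, fe n s f x₀ ε x ^ 2 =
      ε ^ n * ((ε ^ (-(((n : ℝ) - 2 * s) / 2))) ^ 2 * ∫ x, f x ^ 2) := by
    rw [h1]
    field_simp
  rw [h4, ← h3]
  ring

/-- The limiting kernel. -/
noncomputable def KK (s : ℝ) (f : E n → ℝ) (p : E n × E n) : ℝ :=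
  (f p.1 - f p.2) ^ 2 / ‖p.1 - p.2‖ ^ ((n : ℝ) + 2 * s)

lemma B_fe (γ f : E n → ℝ) (x₀ : E n) {ε : ℝ} (hε : 0 < ε) :
    B s γ (fe n s f x₀ ε) (fe n s f x₀ ε) = Cns n s / 2 *
      ∫ p : E n × E n, √(γ (x₀ + ε • p.1)) * √(γ (x₀ + ε • p.2)) * KK s f p := by
  rw [B_eq]
  congr 1
  set F : E n × E n → ℝ := fun p => wt s γ p *
    ((fe n s f x₀ ε p.1 - fe n s f x₀ ε p.2) * (fe n s f x₀ ε p.1 - fe n s f x₀ ε p.2)) with hF
  have h1 := integral_scale ((volume : Measure (E n)).prod volume) F (x₀, x₀) hε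
  rw [← Measure.volume_eq_prod] at h1
  have hfr : Module.finrank ℝ (E n × E n) = n + n := by
    rw [Module.finrank_prod, finrank_euclideanSpace, Fintype.card_fin]
  rw [hfr] at h1
  have h2 : ∀ P : E n × E n, F ((x₀, x₀) + ε • P) = (ε ^ (n + n))⁻¹ *
      (√(γ (x₀ + ε • P.1)) * √(γ (x₀ + ε • P.2)) * KK s f P) := by
    intro P
    have e1 : ((x₀, x₀) + ε • P : E n × E n).1 = x₀ + ε • P.1 := rfl
    have e2 : ((x₀, x₀) + ε • P : E n × E n).2 = x₀ + ε • P.2 := rfl
    simp only [hF, wt, e1, e2, fe_apply f x₀ hε]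
    have e3 : ‖x₀ + ε • P.1 - (x₀ + ε • P.2)‖ = ε * ‖P.1 - P.2‖ := by
      rw [add_sub_add_left_eq_sub, ← smul_sub, norm_smul, Real.norm_eq_abs, abs_of_pos hε]
    rw [e3, Real.mul_rpow hε.le (norm_nonneg _), KK]
    have e4 : (ε ^ (-(((n : ℝ) - 2 * s) / 2))) * (ε ^ (-(((n : ℝ) - 2 * s) / 2))) =
        (ε ^ (n + n))⁻¹ * ε ^ ((n : ℝ) + 2 * s) := by
      rw [← Real.rpow_add hε, ← Real.rpow_natCast ε (n + n), ← Real.rpow_neg hε.le,
        ← Real.rpow_add hε]
      congr 1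
      push_cast
      ring
    have e5 : (ε ^ (-(((n : ℝ) - 2 * s) / 2)) * f P.1 - ε ^ (-(((n : ℝ) - 2 * s) / 2)) * f P.2) *
        (ε ^ (-(((n : ℝ) - 2 * s) / 2)) * f P.1 - ε ^ (-(((n : ℝ) - 2 * s) / 2)) * f P.2) =
        ((ε ^ (-(((n : ℝ) - 2 * s) / 2))) * (ε ^ (-(((n : ℝ) - 2 * s) / 2)))) *
          (f P.1 - f P.2) ^ 2 := by ring
    rw [e5, e4]
    have hp : 0 < ε ^ ((n : ℝ) + 2 * s) := by positivity
    field_simp
  simp_rw [h2] at h1
  rw [integral_const_mul] at h1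
  have h3 : (ε ^ (n + n))⁻¹ ≠ 0 := by positivity
  exact (mul_left_cancel₀ h3 h1).symm

lemma isTest_fe {f : E n → ℝ} {U : Set (E n)} (hf : IsTest U f) (x₀ : E n) {ε : ℝ} (hε : 0 < ε)
    (hf1 : ∀ x, f x ≠ 0 → ‖x‖ ≤ 1) {W : Set (E n)} (hW : closedBall x₀ ε ⊆ W) :
    IsTest W (fe n s f x₀ ε) ∧ ∀ x, fe n s f x₀ ε x ≠ 0 → x ∈ closedBall x₀ ε := by
  have h1 : ∀ x, fe n s f x₀ ε x ≠ 0 → x ∈ closedBall x₀ ε := by
    intro x hx
    have hfx : f (ε⁻¹ • (x - x₀)) ≠ 0 := by
      intro h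
      apply hx
      rw [fe, h, mul_zero]
    have := hf1 _ hfx
    rw [norm_smul, norm_inv, Real.norm_eq_abs, abs_of_pos hε, inv_mul_le_iff₀ hε, mul_one] at this
    rwa [mem_closedBall, dist_eq_norm]
  have h2 : tsupport (fe n s f x₀ ε) ⊆ closedBall x₀ ε :=
    closure_minimal (fun x hx => h1 x hx) isClosed_closedBall
  refine ⟨⟨?_, ?_, h2.trans hW⟩, h1⟩
  · unfold fe
    exact contDiff_const.mul (hf.smooth.comp ((contDiff_id.sub contDiff_const).const_smul ε⁻¹))
  · exact HasCompactSupport.of_support_subset_isCompact (isCompact_closedBall x₀ ε)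
      (subset_closure.trans h2)

end Scaling

/-! ### The Lebesgue point limit -/

section Lebesgue

/-- Tail splitting. -/
lemma tendsto_split {k : E n → ℝ} (hk : Integrable k) (hk0 : ∀ x, 0 ≤ k x) {h : ℕ → E n → ℝ}
    {M : ℝ} (hh0 : ∀ j x, 0 ≤ h j x) (hhM : ∀ j, ∀ᵐ x, h j x ≤ M)
    (hmeas : ∀ j, AEStronglyMeasurable (h j))
    (hloc : ∀ R : ℕ, Tendsto (fun j => ∫ x in closedBall (0 : E n) R, h j x) atTop (𝓝 0)) :
    Tendsto (fun j => ∫ x, h j x * k x) atTop (𝓝 0) := by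
  -- the tail of `k`
  set T : ℕ → E n → ℝ := fun m x => if (k x ≤ m ∧ ‖x‖ ≤ m) then 0 else k x with hT
  have hTm : ∀ m, AEStronglyMeasurable (T m) := by
    intro m
    have hs : NullMeasurableSet {x | k x ≤ m ∧ ‖x‖ ≤ m} := by
      refine NullMeasurableSet.inter ?_ ?_
      · exact nullMeasurableSet_le hk.1.aemeasurable aemeasurable_const
      · exact (measurableSet_le measurable_norm measurable_const).nullMeasurableSet
    have : T m = {x | k x ≤ m ∧ ‖x‖ ≤ m}ᶜ.indicator k := by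
      funext x
      by_cases hx : k x ≤ m ∧ ‖x‖ ≤ m
      · rw [indicator_of_notMem (by simpa using hx)]
        simp only [hT, if_pos hx]
      · rw [indicator_of_mem (by simpa using hx)]
        simp only [hT, if_neg hx]
    rw [this]
    exact hk.1.indicator₀ hs.compl
  have hT0 : ∀ m x, 0 ≤ T m x := by
    intro m x
    simp only [hT]
    split_ifs
    · exact le_rfl
    · exact hk0 x
  have hTk : ∀ m x, T m x ≤ k x := by
    intro m x
    simp only [hT]
    split_ifs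
    · exact hk0 x
    · exact le_rfl
  have hTi : ∀ m, Integrable (T m) := fun m => hk.mono (hTm m) (Eventually.of_forall fun x => by
    rw [Real.norm_eq_abs, Real.norm_eq_abs, abs_of_nonneg (hT0 m x), abs_of_nonneg (hk0 x)]
    exact hTk m x)
  have hTlim : Tendsto (fun m => ∫ x, T m x) atTop (𝓝 0) := by
    have : Tendsto (fun m => ∫ x, T m x) atTop (𝓝 (∫ _ : E n, (0 : ℝ))) := by
      refine tendsto_integral_of_dominated_convergence k hTm hk (fun m => ?_) ?_
      · refine Eventually.of_forall fun x => ?_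
        rw [Real.norm_eq_abs, abs_of_nonneg (hT0 m x)]
        exact hTk m x
      · refine Eventually.of_forall fun x => ?_
        obtain ⟨m₁, hm₁⟩ := exists_nat_ge (k x)
        obtain ⟨m₂, hm₂⟩ := exists_nat_ge ‖x‖
        refine tendsto_const_nhds.congr' ?_
        filter_upwards [eventually_ge_atTop (max m₁ m₂)] with m hm
        have h1 : (m₁ : ℝ) ≤ m := by exact_mod_cast (le_max_left _ _).trans hm
        have h2 : (m₂ : ℝ) ≤ m := by exact_mod_cast (le_max_right _ _).trans hm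
        simp only [hT]
        rw [if_pos ⟨hm₁.trans h1, hm₂.trans h2⟩]
    simpa using this
  have hhi : ∀ j (R : ℕ), IntegrableOn (h j) (closedBall (0 : E n) R) := by
    intro j R
    refine Measure.integrableOn_of_bounded (M := M) measure_closedBall_lt_top.ne (hmeas j) ?_
    filter_upwards [ae_restrict_of_ae (hhM j)] with x hx
    rw [Real.norm_eq_abs, abs_of_nonneg (hh0 j x)]
    exact hx
  -- the pointwise bound
  have hbound : ∀ j (m : ℕ), ∫ x, h j x * k x ≤
      m * (∫ x in closedBall (0 : E n) m, h j x) + M * ∫ x, T m x := by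
    intro j m
    rw [← integral_indicator measurableSet_closedBall, ← integral_const_mul,
      ← integral_const_mul, ← integral_add]
    · refine integral_mono_of_nonneg (Eventually.of_forall fun x => mul_nonneg (hh0 j x) (hk0 x)) ?_
        ?_
      · exact (((hhi j m).integrable_indicator measurableSet_closedBall).const_mul _).add
          ((hTi m).const_mul _)
      · filter_upwards [hhM j] with x hx
        by_cases hc : k x ≤ m ∧ ‖x‖ ≤ m
        · have h1 : x ∈ closedBall (0 : E n) m := by simpa using hc.2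
          have h2 : T m x = 0 := by simp only [hT, if_pos hc]
          rw [indicator_of_mem h1, h2, mul_zero, add_zero, mul_comm]
          exact mul_le_mul_of_nonneg_right hc.1 (hh0 j x)
        · have h2 : T m x = k x := by simp only [hT, if_neg hc]
          rw [h2]
          have h3 : 0 ≤ (m : ℝ) * (closedBall (0 : E n) m).indicator (h j) x :=
            mul_nonneg (by positivity) (indicator_nonneg (fun y _ => hh0 j y) x)
          have h4 : h j x * k x ≤ M * k x := mul_le_mul_of_nonneg_right hx (hk0 x)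
          linarith
    · exact ((hhi j m).integrable_indicator measurableSet_closedBall).const_mul _
    · exact (hTi m).const_mul _
  have hnn : ∀ j, 0 ≤ ∫ x, h j x * k x := fun j =>
    integral_nonneg fun x => mul_nonneg (hh0 j x) (hk0 x)
  rw [Metric.tendsto_atTop]
  intro ε hε
  have h1 : Tendsto (fun m => M * ∫ x, T m x) atTop (𝓝 (M * 0)) := hTlim.const_mul M
  rw [mul_zero] at h1
  obtain ⟨m, hm⟩ := (h1.eventually (gt_mem_nhds (half_pos hε))).exists
  have h2 : Tendsto (fun j => (m : ℝ) * ∫ x in closedBall (0 : E n) m, h j x) atTop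
      (𝓝 ((m : ℝ) * 0)) := (hloc m).const_mul _
  rw [mul_zero] at h2
  obtain ⟨J, hJ⟩ := eventually_atTop.1 (h2.eventually (gt_mem_nhds (half_pos hε)))
  refine ⟨J, fun j hj => ?_⟩
  rw [Real.dist_eq, sub_zero, abs_of_nonneg (hnn j)]
  have := hbound j m
  have := hJ j hj
  linarith

lemma qmp (x₀ : E n) {ε : ℝ} (hε : ε ≠ 0) :
    Measure.QuasiMeasurePreserving (fun X : E n => x₀ + ε • X) volume volume := by
  have hm : Measurable fun X : E n => x₀ + ε • X := by fun_prop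
  refine ⟨hm, Measure.AbsolutelyContinuous.mk fun t ht h0 => ?_⟩
  rw [Measure.map_apply hm ht]
  have e : (fun X : E n => x₀ + ε • X) ⁻¹' t =
      (fun X : E n => ε • X) ⁻¹' ((fun Y : E n => x₀ + Y) ⁻¹' t) := rfl
  rw [e, Measure.addHaar_preimage_smul _ hε, measure_preimage_add, h0, mul_zero]

/-- Integrals over balls after rescaling. -/
lemma integral_ball_scale (hn : 1 ≤ n) (F : E n → ℝ) (x₀ : E n) {ε R : ℝ} (hε : 0 < ε)
    (hR : 0 < R) : ∫ X in closedBall (0 : E n) R, F (x₀ + ε • X) =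
      (R ^ n * volume.real (ball (0 : E n) 1)) * ⨍ y in closedBall x₀ (ε * R), F y := by
  have h1 := integral_scale volume ((closedBall x₀ (ε * R)).indicator F) x₀ hε
  have h2 : (fun X => (closedBall x₀ (ε * R)).indicator F (x₀ + ε • X)) =
      (closedBall (0 : E n) R).indicator fun X => F (x₀ + ε • X) := by
    funext X
    have h3 : x₀ + ε • X ∈ closedBall x₀ (ε * R) ↔ X ∈ closedBall (0 : E n) R := by
      rw [mem_closedBall, dist_eq_norm, add_sub_cancel_left, norm_smul, Real.norm_eq_abs,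
        abs_of_pos hε, mem_closedBall_zero_iff, mul_le_mul_iff_right₀ hε]
    by_cases hX : X ∈ closedBall (0 : E n) R
    · rw [indicator_of_mem hX, indicator_of_mem (h3.2 hX)]
    · rw [indicator_of_notMem hX, indicator_of_notMem (mt h3.1 hX)]
  rw [h2, integral_indicator measurableSet_closedBall, integral_indicator measurableSet_closedBall,
    finrank_euclideanSpace, Fintype.card_fin] at h1
  rw [h1, setAverage_eq, smul_eq_mul, Measure.addHaar_real_closedBall _ _ (by positivity),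
    finrank_euclideanSpace, Fintype.card_fin]
  have hv : 0 < volume.real (ball (0 : E n) 1) := by
    rw [Measure.real]
    exact ENNReal.toReal_pos (measure_ball_pos volume _ one_pos).ne' measure_ball_lt_top.ne
  have : 0 < n := hn
  field_simp
  ring

lemma lebesgue_ae (hn : 1 ≤ n) {σ : E n → ℝ} (hσ : LocallyIntegrable σ) :
    ∀ᵐ x₀, ∀ R : ℕ, Tendsto (fun j : ℕ => ∫ X in closedBall (0 : E n) R,
      |σ (x₀ + (1 / ((j : ℝ) + 1)) • X) - σ x₀|) atTop (𝓝 0) := by
  filter_upwards [(Besicovitch.vitaliFamily (volume : Measure (E n))).ae_tendsto_average_norm_sub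
    hσ] with x₀ hx R
  have hdelta : Tendsto (fun j : ℕ => 1 / ((j : ℝ) + 1)) atTop (𝓝 0) :=
    tendsto_one_div_add_atTop_nhds_zero_nat
  rcases Nat.eq_zero_or_pos R with hR | hR
  · subst hR
    have : Nontrivial (E n) := by
      apply Module.nontrivial_of_finrank_pos (R := ℝ)
      rw [finrank_euclideanSpace, Fintype.card_fin]
      exact hn
    simp
  · have hR' : (0 : ℝ) < R := by exact_mod_cast hR
    have h1 : Tendsto (fun j : ℕ => 1 / ((j : ℝ) + 1) * R) atTop (𝓝[>] 0) := by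
      rw [tendsto_nhdsWithin_iff]
      refine ⟨by simpa using hdelta.mul_const (R : ℝ), Eventually.of_forall fun j => ?_⟩
      show (0 : ℝ) < _
      positivity
    have h2 := (hx.comp (Besicovitch.tendsto_filterAt volume x₀)).comp h1
    have h3 := h2.const_mul ((R : ℝ) ^ n * volume.real (ball (0 : E n) 1))
    rw [mul_zero] at h3
    refine h3.congr fun j => ?_
    have hj : (0 : ℝ) < 1 / ((j : ℝ) + 1) := by positivity
    rw [integral_ball_scale hn (fun y => |σ y - σ x₀|) x₀ hj hR']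
    rfl

lemma KK_nonneg (f : E n → ℝ) (p : E n × E n) : 0 ≤ KK s f p := by
  unfold KK; positivity

lemma KK_swap (f : E n → ℝ) (p : E n × E n) : KK s f p.swap = KK s f p := by
  unfold KK
  rw [Prod.fst_swap, Prod.snd_swap, norm_sub_rev]
  congr 1
  ring

/-- The blow-up limit. -/
lemma ae_limit (hn : 1 ≤ n) {γ f : E n → ℝ} (hγ : UniformlyElliptic γ)
    (hK : Integrable (KK s f)) :
    ∀ᵐ x₀, Tendsto (fun j : ℕ => ∫ p : E n × E n, √(γ (x₀ + (1 / ((j : ℝ) + 1)) • p.1)) *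
      √(γ (x₀ + (1 / ((j : ℝ) + 1)) • p.2)) * KK s f p) atTop
      (𝓝 (γ x₀ * ∫ p, KK s f p)) := by
  obtain ⟨c₀, c₁, hc0, hc01, hb⟩ := hγ.bounds
  set σ : E n → ℝ := fun x => √(γ x) with hσ
  have hσm : AEStronglyMeasurable σ :=
    Real.continuous_sqrt.comp_aestronglyMeasurable hγ.aestronglyMeasurable
  have hσb : ∀ᵐ x, 0 ≤ σ x ∧ σ x ≤ √c₁ := by
    filter_upwards [hb] with x hx
    exact ⟨Real.sqrt_nonneg _, Real.sqrt_le_sqrt hx.2⟩
  have hσl : LocallyIntegrable σ := by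
    rw [locallyIntegrable_iff]
    intro K hK'
    refine Measure.integrableOn_of_bounded (M := √c₁) hK'.measure_lt_top.ne hσm ?_
    filter_upwards [ae_restrict_of_ae hσb] with x hx
    rw [Real.norm_eq_abs, abs_of_nonneg hx.1]
    exact hx.2
  filter_upwards [lebesgue_ae hn hσl, hb, hσb] with x₀ hleb hx₀ hσ₀
  set k : E n → ℝ := fun x => ∫ y, KK s f (x, y) with hk
  have hki : Integrable k := by
    have h1 : Integrable (KK s f) ((volume : Measure (E n)).prod volume) := hK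
    exact h1.integral_prod_left
  have hk0 : ∀ x, 0 ≤ k x := fun x => integral_nonneg fun y => KK_nonneg f _
  set ε : ℕ → ℝ := fun j => 1 / ((j : ℝ) + 1) with hε
  have hε0 : ∀ j, 0 < ε j := fun j => by simp only [hε]; positivity
  have hσj : ∀ j, ∀ᵐ X, 0 ≤ σ (x₀ + ε j • X) ∧ σ (x₀ + ε j • X) ≤ √c₁ := fun j =>
    (qmp x₀ (hε0 j).ne').ae hσb
  have hσjm : ∀ j, AEStronglyMeasurable fun X => σ (x₀ + ε j • X) := fun j =>
    hσm.comp_quasiMeasurePreserving (qmp x₀ (hε0 j).ne')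
  set h : ℕ → E n → ℝ := fun j X => |σ (x₀ + ε j • X) - σ x₀| with hh
  have hhm : ∀ j, AEStronglyMeasurable (h j) := fun j => by
    have := ((hσjm j).sub (aestronglyMeasurable_const (b := σ x₀))).norm
    exact this
  have hh0 : ∀ j x, 0 ≤ h j x := fun j x => abs_nonneg _
  have hhM : ∀ j, ∀ᵐ x, h j x ≤ √c₁ := by
    intro j
    filter_upwards [hσj j] with X hX
    simp only [hh]
    rw [abs_le]
    constructor <;> linarith [hX.1, hX.2, hσ₀.1, hσ₀.2]
  have hlim := tendsto_split hki hk0 hh0 hhM hhm hleb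
  -- compare
  have hprod1 : ∀ j, Integrable fun p : E n × E n => h j p.1 * KK s f p := by
    intro j
    refine Integrable.mono' (hK.const_mul √c₁) ((hhm j).comp_fst.mul hK.1) ?_
    filter_upwards [ae_fst (hhM j)] with p hp
    rw [norm_mul, Real.norm_eq_abs, abs_of_nonneg (hh0 j _), Real.norm_eq_abs,
      abs_of_nonneg (KK_nonneg f p)]
    exact mul_le_mul_of_nonneg_right hp (KK_nonneg f p)
  have hprod2 : ∀ j, Integrable fun p : E n × E n => h j p.2 * KK s f p := by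
    intro j
    refine Integrable.mono' (hK.const_mul √c₁) ((hhm j).comp_snd.mul hK.1) ?_
    filter_upwards [ae_snd (hhM j)] with p hp
    rw [norm_mul, Real.norm_eq_abs, abs_of_nonneg (hh0 j _), Real.norm_eq_abs,
      abs_of_nonneg (KK_nonneg f p)]
    exact mul_le_mul_of_nonneg_right hp (KK_nonneg f p)
  have hint1 : ∀ j, ∫ p : E n × E n, h j p.1 * KK s f p = ∫ x, h j x * k x := by
    intro j
    rw [Measure.volume_eq_prod, integral_prod _ (hprod1 j)]
    refine integral_congr_ae (Eventually.of_forall fun x => ?_)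
    simp only
    rw [integral_const_mul]
  have hint2 : ∀ j, ∫ p : E n × E n, h j p.2 * KK s f p = ∫ x, h j x * k x := by
    intro j
    rw [← hint1 j, Measure.volume_eq_prod, ← integral_prod_swap]
    refine integral_congr_ae (Eventually.of_forall fun p => ?_)
    simp only
    rw [KK_swap, Prod.snd_swap]
  have hmain_int : ∀ j, Integrable fun p : E n × E n =>
      σ (x₀ + ε j • p.1) * σ (x₀ + ε j • p.2) * KK s f p := by
    intro j
    refine Integrable.mono' (hK.const_mul (√c₁ * √c₁))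
      (((hσjm j).comp_fst.mul (hσjm j).comp_snd).mul hK.1) ?_
    filter_upwards [ae_fst (hσj j), ae_snd (hσj j)] with p h1 h2
    rw [norm_mul, norm_mul, Real.norm_eq_abs, abs_of_nonneg h1.1, Real.norm_eq_abs,
      abs_of_nonneg h2.1, Real.norm_eq_abs, abs_of_nonneg (KK_nonneg f p)]
    have h3 := h1.1
    have h4 := h2.1
    have h5 := KK_nonneg (s := s) f p
    gcongr
    · exact h1.2
    · exact h2.2
  have hσsq : σ x₀ * σ x₀ = γ x₀ := Real.mul_self_sqrt (by linarith [hx₀.1])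
  rw [tendsto_iff_norm_sub_tendsto_zero]
  have hlim2 := hlim.const_mul (2 * √c₁)
  rw [mul_zero] at hlim2
  refine squeeze_zero (fun j => norm_nonneg _) (fun j => ?_) hlim2
  have e1 : (∫ p : E n × E n, √(γ (x₀ + (1 / ((j : ℝ) + 1)) • p.1)) *
      √(γ (x₀ + (1 / ((j : ℝ) + 1)) • p.2)) * KK s f p) - γ x₀ * ∫ p, KK s f p =
      ∫ p : E n × E n, (σ (x₀ + ε j • p.1) * σ (x₀ + ε j • p.2) * KK s f p -
        γ x₀ * KK s f p) := by
    rw [integral_sub (hmain_int j) (hK.const_mul _), integral_const_mul]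
  rw [e1]
  have e2 : 2 * √c₁ * ∫ x, h j x * k x = ∫ p : E n × E n,
      (√c₁ * (h j p.1 * KK s f p) + √c₁ * (h j p.2 * KK s f p)) := by
    rw [integral_add ((hprod1 j).const_mul _) ((hprod2 j).const_mul _), integral_const_mul,
      integral_const_mul, hint1, hint2]
    ring
  rw [e2]
  refine norm_integral_le_of_norm_le (((hprod1 j).const_mul _).add ((hprod2 j).const_mul _)) ?_
  filter_upwards [ae_fst (hσj j), ae_snd (hσj j)] with p h1 h2
  have h5 := KK_nonneg (s := s) f p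
  have e3 : σ (x₀ + ε j • p.1) * σ (x₀ + ε j • p.2) * KK s f p - γ x₀ * KK s f p =
      ((σ (x₀ + ε j • p.1) - σ x₀) * σ (x₀ + ε j • p.2) +
        σ x₀ * (σ (x₀ + ε j • p.2) - σ x₀)) * KK s f p := by
    rw [← hσsq]; ring
  rw [e3, norm_mul, Real.norm_eq_abs (KK s f p), abs_of_nonneg h5]
  have h6 : ‖(σ (x₀ + ε j • p.1) - σ x₀) * σ (x₀ + ε j • p.2) +
        σ x₀ * (σ (x₀ + ε j • p.2) - σ x₀)‖ ≤ √c₁ * h j p.1 + √c₁ * h j p.2 := by
    refine (norm_add_le _ _).trans ?_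
    rw [norm_mul, norm_mul, Real.norm_eq_abs, Real.norm_eq_abs, Real.norm_eq_abs,
      Real.norm_eq_abs, abs_of_nonneg h2.1, abs_of_nonneg hσ₀.1]
    have a1 : |σ (x₀ + ε j • p.1) - σ x₀| * σ (x₀ + ε j • p.2) ≤ √c₁ * h j p.1 := by
      rw [mul_comm]
      exact mul_le_mul_of_nonneg_right h2.2 (hh0 j _)
    have a2 : σ x₀ * |σ (x₀ + ε j • p.2) - σ x₀| ≤ √c₁ * h j p.2 :=
      mul_le_mul_of_nonneg_right hσ₀.2 (hh0 j _)
    linarith
  calc _ ≤ (√c₁ * h j p.1 + √c₁ * h j p.2) * KK s f p := mul_le_mul_of_nonneg_right h6 h5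
    _ = _ := by ring

end Lebesgue

/-! ### The determination argument -/

section Determination

lemma exists_bump (hn : 1 ≤ n) (hs0 : 0 < s) (hs1 : s < 1) : ∃ f : E n → ℝ, IsTest univ f ∧
    (∀ x, f x ≠ 0 → ‖x‖ ≤ 1) ∧ Integrable (KK s f) ∧ 0 < ∫ p, KK s f p := by
  set b : ContDiffBump (0 : E n) := ⟨1 / 2, 1, by norm_num, by norm_num⟩ with hb
  have htest : IsTest univ (b : E n → ℝ) := ⟨b.contDiff, b.hasCompactSupport, subset_univ _⟩
  have hsupp : ∀ x, b x ≠ 0 → ‖x‖ ≤ 1 := by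
    intro x hx
    have : x ∈ Function.support b := hx
    rw [b.support_eq, mem_ball_zero_iff] at this
    exact this.le
  have hint := test_gagliardo hn hs0 hs1 htest
  refine ⟨b, htest, hsupp, hint, ?_⟩
  rw [integral_pos_iff_support_of_nonneg (fun p => KK_nonneg _ p) hint]
  have : Nontrivial (E n) := by
    apply Module.nontrivial_of_finrank_pos (R := ℝ)
    rw [finrank_euclideanSpace, Fintype.card_fin]
    exact hn
  have hopen : IsOpen {p : E n × E n | ‖p.1‖ < 1 / 2 ∧ 1 < ‖p.2‖} :=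
    (isOpen_lt continuous_fst.norm continuous_const).inter
      (isOpen_lt continuous_const continuous_snd.norm)
  have hne : {p : E n × E n | ‖p.1‖ < 1 / 2 ∧ 1 < ‖p.2‖}.Nonempty := by
    obtain ⟨v, hv⟩ := exists_norm_eq (E n) (c := 2) (by norm_num)
    exact ⟨(0, v), by simp, by simp [hv]⟩
  refine lt_of_lt_of_le (hopen.measure_pos volume hne) (measure_mono ?_)
  rintro p ⟨hp1, hp2⟩
  have h1 : b p.1 = 1 := b.one_of_mem_closedBall (by
    rw [mem_closedBall_zero_iff]; exact hp1.le)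
  have h2 : b p.2 = 0 := by
    by_contra h
    have := hsupp _ h
    linarith
  have h3 : p.1 ≠ p.2 := by
    intro h
    rw [h] at hp1
    linarith
  have h4 : 0 < ‖p.1 - p.2‖ := norm_pos_iff.2 (sub_ne_zero.2 h3)
  show KK s b p ≠ 0
  unfold KK
  rw [h1, h2]
  positivity

/-- The core statement: the quadratic form of the DN map at concentrated test functions. -/
lemma dn_limit (hn : 1 ≤ n) (hs0 : 0 < s) (hs1 : s < 1) {Ω : Set (E n)} (hΩ : IsOpen Ω)
    {γ f : E n → ℝ} (hγ : UniformlyElliptic γ) (hf : IsTest univ f)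
    (hf1 : ∀ x, f x ≠ 0 → ‖x‖ ≤ 1) {x₀ : E n} {δ : ℝ} (hδ : 0 < δ)
    (hsep : ∀ y ∈ Ω, 2 * δ ≤ ‖x₀ - y‖)
    (hx₀ : Tendsto (fun j : ℕ => ∫ p : E n × E n, √(γ (x₀ + (1 / ((j : ℝ) + 1)) • p.1)) *
      √(γ (x₀ + (1 / ((j : ℝ) + 1)) • p.2)) * KK s f p) atTop
      (𝓝 (γ x₀ * ∫ p, KK s f p))) {u : ℕ → E n → ℝ}
    (hu : ∀ᶠ j : ℕ in atTop, IsSol s Ω γ (fe n s f x₀ (1 / ((j : ℝ) + 1))) (u j)) :
    Tendsto (fun j : ℕ => B s γ (u j) (fe n s f x₀ (1 / ((j : ℝ) + 1)))) atTop
      (𝓝 (Cns n s / 2 * (γ x₀ * ∫ p, KK s f p))) := by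
  obtain ⟨c₀, c₁, hc0, hc01, hb⟩ := hγ.bounds
  have hdelta : Tendsto (fun j : ℕ => 1 / ((j : ℝ) + 1)) atTop (𝓝 0) :=
    tendsto_one_div_add_atTop_nhds_zero_nat
  have hsmall : ∀ᶠ j : ℕ in atTop, 1 / ((j : ℝ) + 1) < δ := hdelta.eventually (gt_mem_nhds hδ)
  -- the correction tends to zero
  have hkey : ∀ᶠ j : ℕ in atTop, ‖B s γ (u j) (fe n s f x₀ (1 / ((j : ℝ) + 1))) -
      Cns n s / 2 * (∫ p : E n × E n, √(γ (x₀ + (1 / ((j : ℝ) + 1)) • p.1)) *
      √(γ (x₀ + (1 / ((j : ℝ) + 1)) • p.2)) * KK s f p)‖ ≤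
      2 * Cns n s * c₁ * (∫ z, kap n s δ z) *
        ((1 / ((j : ℝ) + 1)) ^ (2 * s) * ∫ x, f x ^ 2) := by
    filter_upwards [hu, hsmall] with j hj hj2
    have hε : (0 : ℝ) < 1 / ((j : ℝ) + 1) := by positivity
    obtain ⟨ht, hsupp⟩ := isTest_fe hf (s := s) x₀ hε hf1 (W := univ) (subset_univ _)
    obtain ⟨e1, e2, e3⟩ := correction_bound hn hs0 hs1 hΩ hγ hc0 hb ht hj hδ (by
      intro x hx y hy
      have h1 := hsupp x hx
      rw [mem_closedBall, dist_eq_norm] at h1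
      have h2 := hsep y hy
      have h3 : ‖x₀ - y‖ ≤ ‖x - x₀‖ + ‖x - y‖ := by
        rw [norm_sub_rev x x₀]
        calc ‖x₀ - y‖ = ‖(x₀ - x) + (x - y)‖ := by congr 1; abel
          _ ≤ _ := norm_add_le _ _
      linarith)
    rw [integral_fe_sq f x₀ hε] at e3
    rw [B_fe γ f x₀ hε] at e1
    rw [e1, Real.norm_eq_abs, sub_right_comm, sub_self, zero_sub, abs_neg, abs_of_nonneg e2]
    exact e3
  have h0 : Tendsto (fun j : ℕ => 2 * Cns n s * c₁ * (∫ z, kap n s δ z) *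
        ((1 / ((j : ℝ) + 1)) ^ (2 * s) * ∫ x, f x ^ 2)) atTop
        (𝓝 (2 * Cns n s * c₁ * (∫ z, kap n s δ z) * ((0 : ℝ) ^ (2 * s) * ∫ x, f x ^ 2))) := by
    refine Tendsto.const_mul _ (Tendsto.mul_const _ ?_)
    exact hdelta.rpow_const (Or.inr (by positivity))
  rw [Real.zero_rpow (by positivity), zero_mul, mul_zero] at h0
  have h1 : Tendsto (fun j : ℕ => B s γ (u j) (fe n s f x₀ (1 / ((j : ℝ) + 1))) -
      Cns n s / 2 * (∫ p : E n × E n, √(γ (x₀ + (1 / ((j : ℝ) + 1)) • p.1)) *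
      √(γ (x₀ + (1 / ((j : ℝ) + 1)) • p.2)) * KK s f p)) atTop (𝓝 0) :=
    squeeze_zero_norm' hkey h0
  have h2 := h1.add (hx₀.const_mul (Cns n s / 2))
  rw [zero_add] at h2
  refine h2.congr fun j => ?_
  ring

end Determination

/-! ### The Poincaré inequality, existence and uniqueness of solutions -/

section Existence

/-- Poincaré inequality on sets bounded in one direction. -/
lemma poincare (hn : 1 ≤ n) (hs0 : 0 < s) {Ω : Set (E n)} (hΩ : BoundedInOneDirection Ω) :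
    ∃ κ : ℝ, 0 < κ ∧ ∀ w : E n → ℝ, MemHs s w → (∀ᵐ x, x ∉ Ω → w x = 0) →
      κ * ∫ x, w x ^ 2 ≤ ∫ p : E n × E n, (w p.1 - w p.2) ^ 2 / ‖p.1 - p.2‖ ^ (n + 2 * s) := by
  obtain ⟨e, a, b, he, hab, hsub⟩ := hΩ
  set L : ℝ := b - a with hL
  have hL0 : 0 < L := sub_pos.2 hab
  set Z : Set (E n) := ball ((2 * L) • e) L with hZ
  have hZm : MeasurableSet Z := measurableSet_ball
  have hZv : 0 < volume.real Z :=
    ENNReal.toReal_pos (measure_ball_pos volume _ hL0).ne' measure_ball_lt_top.ne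
  have hZ1 : ∀ z ∈ Z, ‖z‖ ≤ 3 * L := by
    intro z hz
    rw [hZ, mem_ball, dist_eq_norm] at hz
    calc ‖z‖ = ‖(z - (2 * L) • e) + (2 * L) • e‖ := by rw [sub_add_cancel]
      _ ≤ ‖z - (2 * L) • e‖ + ‖(2 * L) • e‖ := norm_add_le _ _
      _ ≤ L + 2 * L := by
        rw [norm_smul, he, Real.norm_eq_abs, abs_of_pos (by positivity), mul_one]
        linarith
      _ = 3 * L := by ring
  have hZ2 : ∀ z ∈ Z, L < inner ℝ z e := by
    intro z hz
    rw [hZ, mem_ball, dist_eq_norm] at hz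
    have h1 : inner ℝ z e = inner ℝ (z - (2 * L) • e) e + 2 * L := by
      rw [inner_sub_left, inner_smul_left, real_inner_self_eq_norm_sq, he]
      simp
    have h2 : |inner ℝ (z - (2 * L) • e) e| ≤ ‖z - (2 * L) • e‖ * ‖e‖ :=
      abs_real_inner_le_norm _ _
    rw [he, mul_one] at h2
    have := (abs_le.1 h2).1
    rw [h1]
    linarith
  have hpow : 0 < (3 * L) ^ ((n : ℝ) + 2 * s) := by positivity
  refine ⟨volume.real Z / (3 * L) ^ ((n : ℝ) + 2 * s), by positivity, fun w hw hz => ?_⟩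
  set bb : E n → ℝ := Z.indicator fun _ => ((3 * L) ^ ((n : ℝ) + 2 * s))⁻¹ with hbb
  have hbi : Integrable bb := by
    rw [hbb, integrable_indicator_iff hZm]
    exact integrableOn_const measure_ball_lt_top.ne
  have hwi : Integrable fun x => w x ^ 2 := hw.memLp.integrable_sq
  have h1 := integral_prod_right hwi hbi
  have h2 : ∫ x, bb x = volume.real Z / (3 * L) ^ ((n : ℝ) + 2 * s) := by
    rw [hbb, integral_indicator hZm, setIntegral_const, smul_eq_mul, div_eq_mul_inv]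
  rw [h2] at h1
  rw [mul_comm, ← h1]
  refine integral_mono_ae (integrable_prod_right hwi hbi) hw.gagliardo ?_
  filter_upwards [ae_fst hz, ae_snd hz] with p hp1 hp2
  by_cases hy : p.2 ∈ Ω
  · by_cases hzz : p.1 - p.2 ∈ Z
    · have hx : p.1 ∉ Ω := by
        intro hx
        have e1 := hsub hx
        have e2 := hsub hy
        have e3 := hZ2 _ hzz
        rw [inner_sub_left] at e3
        simp only [mem_ofPred_eq] at e1 e2
        linarith [e1.1, e1.2, e2.1, e2.2]
      have hw1 := hp1 hx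
      have hpos : p.1 - p.2 ≠ 0 := by
        intro h
        have e3 := hZ2 _ hzz
        rw [h, inner_zero_left] at e3
        linarith
      have hnorm : 0 < ‖p.1 - p.2‖ := norm_pos_iff.2 hpos
      rw [hbb, indicator_of_mem hzz, hw1, zero_sub, neg_sq, ← div_eq_mul_inv]
      gcongr
      exact hZ1 _ hzz
    · rw [hbb, indicator_of_notMem hzz, mul_zero]
      positivity
  · rw [hp2 hy]
    simp only [ne_eq, OfNat.ofNat_ne_zero, not_false_eq_true, zero_pow, zero_mul]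
    positivity

/-- The weighted difference. -/
noncomputable def gg (s : ℝ) (γ u : E n → ℝ) (p : E n × E n) : ℝ :=
  √(wt s γ p) * (u p.1 - u p.2)

lemma gg_mul (γ u v : E n → ℝ) (p : E n × E n) :
    gg s γ u p * gg s γ v p = wt s γ p * ((u p.1 - u p.2) * (v p.1 - v p.2)) := by
  unfold gg
  have := Real.mul_self_sqrt (wt_nonneg (s := s) (γ := γ) p)
  calc _ = (√(wt s γ p) * √(wt s γ p)) * ((u p.1 - u p.2) * (v p.1 - v p.2)) := by ring
    _ = _ := by rw [this]

lemma gg_aesm {γ u : E n → ℝ} (hγ : UniformlyElliptic γ) (hu : AEStronglyMeasurable u) :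
    AEStronglyMeasurable (gg s γ u) (volume : Measure (E n × E n)) :=
  (Real.continuous_sqrt.comp_aestronglyMeasurable (wt_aesm hγ.aestronglyMeasurable)).mul
    (diff_aesm hu)

lemma gg_memLp {γ u : E n → ℝ} (hγ : UniformlyElliptic γ) (hu : MemHs s u) :
    MemLp (gg s γ u) 2 (volume : Measure (E n × E n)) := by
  rw [memLp_two_iff_integrable_sq (gg_aesm hγ hu.aesm)]
  refine (form_integrable hγ hu hu).congr (Eventually.of_forall fun p => ?_)
  simp only
  rw [sq, gg_mul]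

/-- Converse: finite weighted energy gives the Gagliardo integrability. -/
lemma memHs_of_gg {γ u : E n → ℝ} (hγ : UniformlyElliptic γ) (hu : MemLp u 2)
    (h : MemLp (gg s γ u) 2 (volume : Measure (E n × E n))) : MemHs s u := by
  obtain ⟨c₀, c₁, hc0, hc01, hb⟩ := hγ.bounds
  refine ⟨hu, ?_⟩
  refine Integrable.mono' (h.integrable_sq.const_mul c₀⁻¹) ?_ ?_
  · have h1 := (diff_aesm hu.1).pow 2
    have h3 : Measurable fun p : E n × E n => (‖p.1 - p.2‖ ^ ((n : ℝ) + 2 * s))⁻¹ := by fun_prop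
    exact (h1.mul h3.aestronglyMeasurable).congr (Eventually.of_forall fun p => by
      simp [div_eq_mul_inv])
  · filter_upwards [wt_bounds (s := s) hc0 hb] with p hp
    rw [norm_div, Real.norm_eq_abs, abs_of_nonneg (sq_nonneg _), Real.norm_eq_abs,
      abs_of_nonneg (by positivity), sq (gg s γ u p), gg_mul]
    calc (u p.1 - u p.2) ^ 2 / ‖p.1 - p.2‖ ^ ((n : ℝ) + 2 * s) =
        c₀⁻¹ * (c₀ / ‖p.1 - p.2‖ ^ ((n : ℝ) + 2 * s) * ((u p.1 - u p.2) * (u p.1 - u p.2))) := by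
          field_simp
      _ ≤ c₀⁻¹ * (wt s γ p * ((u p.1 - u p.2) * (u p.1 - u p.2))) := by
          have := hp.1
          have := mul_self_nonneg (u p.1 - u p.2)
          gcongr

lemma gag_le {γ u : E n → ℝ} {c₀ c₁ : ℝ} (hc0 : 0 < c₀) (hγ : UniformlyElliptic γ)
    (hb : ∀ᵐ x, c₀ ≤ γ x ∧ γ x ≤ c₁) (hu : MemHs s u) :
    ∫ p : E n × E n, (u p.1 - u p.2) ^ 2 / ‖p.1 - p.2‖ ^ (n + 2 * s) ≤
      c₀⁻¹ * ∫ p : E n × E n, gg s γ u p ^ 2 := by
  rw [← integral_const_mul]
  refine integral_mono_ae hu.gagliardo ((gg_memLp hγ hu).integrable_sq.const_mul _) ?_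
  filter_upwards [wt_bounds (s := s) hc0 hb] with p hp
  rw [sq (gg s γ u p), gg_mul]
  calc (u p.1 - u p.2) ^ 2 / ‖p.1 - p.2‖ ^ ((n : ℝ) + 2 * s) =
        c₀⁻¹ * (c₀ / ‖p.1 - p.2‖ ^ ((n : ℝ) + 2 * s) * ((u p.1 - u p.2) * (u p.1 - u p.2))) := by
          field_simp
      _ ≤ c₀⁻¹ * (wt s γ p * ((u p.1 - u p.2) * (u p.1 - u p.2))) := by
          have := hp.1
          have := mul_self_nonneg (u p.1 - u p.2)
          gcongr

lemma IsTest.add {U : Set (E n)} {φ ψ : E n → ℝ} (h1 : IsTest U φ) (h2 : IsTest U ψ) :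
    IsTest U fun x => φ x + ψ x :=
  ⟨h1.smooth.add h2.smooth, h1.compact.add h2.compact,
    (tsupport_add φ ψ).trans (union_subset h1.subset h2.subset)⟩

lemma IsTest.smul {U : Set (E n)} {φ : E n → ℝ} (c : ℝ) (h1 : IsTest U φ) :
    IsTest U fun x => c * φ x :=
  ⟨contDiff_const.mul h1.smooth, h1.compact.mul_left, (tsupport_mul_subset_right).trans h1.subset⟩

lemma IsTest.zero {U : Set (E n)} : IsTest U fun _ : E n => (0 : ℝ) :=
  ⟨contDiff_const, HasCompactSupport.zero, by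
    have : tsupport (fun _ : E n => (0 : ℝ)) = ∅ := by
      rw [tsupport_eq_empty_iff]; rfl
    rw [this]; exact empty_subset _⟩

lemma IsTest.sub {U : Set (E n)} {φ ψ : E n → ℝ} (h1 : IsTest U φ) (h2 : IsTest U ψ) :
    IsTest U fun x => φ x - ψ x := by
  have := h1.add (h2.smul (-1))
  refine cast ?_ this
  congr 1
  funext x
  ring

/-- The subspace of weighted differences of test functions. -/
noncomputable def SS (s : ℝ) (γ : E n → ℝ) (Ω : Set (E n)) :
    Submodule ℝ (Lp ℝ 2 (volume : Measure (E n × E n))) where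
  carrier := {v | ∃ φ, IsTest Ω φ ∧ (v : E n × E n → ℝ) =ᵐ[volume] gg s γ φ}
  zero_mem' := by
    refine ⟨fun _ => 0, IsTest.zero, ?_⟩
    filter_upwards [Lp.coeFn_zero ℝ 2 (volume : Measure (E n × E n))] with p hp
    rw [hp]
    simp [gg]
  add_mem' := by
    rintro v w ⟨φ, hφ, hv⟩ ⟨ψ, hψ, hw⟩
    refine ⟨_, hφ.add hψ, ?_⟩
    filter_upwards [Lp.coeFn_add v w, hv, hw] with p h1 h2 h3
    rw [h1, Pi.add_apply, h2, h3]
    simp only [gg]
    ring
  smul_mem' := by
    rintro c v ⟨φ, hφ, hv⟩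
    refine ⟨_, hφ.smul c, ?_⟩
    filter_upwards [Lp.coeFn_smul c v, hv] with p h1 h2
    rw [h1, Pi.smul_apply, h2]
    simp only [gg, smul_eq_mul]
    ring

lemma norm_sq_eq {α : Type*} [MeasurableSpace α] {μ : Measure α} (v : Lp ℝ 2 μ) :
    ‖v‖ ^ 2 = ∫ x, (v x) ^ 2 ∂μ := by
  have h := L2.inner_def (𝕜 := ℝ) v v
  rw [real_inner_self_eq_norm_sq] at h
  rw [h]
  refine integral_congr_ae (Eventually.of_forall fun x => ?_)
  simp only [real_inner_self_eq_norm_sq, Real.norm_eq_abs, sq_abs]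

lemma test_zero {Ω : Set (E n)} {φ : E n → ℝ} (h : IsTest Ω φ) :
    ∀ᵐ x, x ∉ Ω → φ x = 0 :=
  Eventually.of_forall fun _ hx => image_eq_zero_of_notMem_tsupport fun hx' => hx (h.subset hx')

/-- Existence of solutions. -/
lemma exists_sol (hn : 1 ≤ n) (hs0 : 0 < s) (hs1 : s < 1) {Ω : Set (E n)}
    (hΩ : BoundedInOneDirection Ω) {γ f : E n → ℝ} (hγ : UniformlyElliptic γ) {U : Set (E n)}
    (hf : IsTest U f) : ∃ u, IsSol s Ω γ f u := by
  obtain ⟨κ, hκ, hP⟩ := poincare (s := s) hn hs0 hΩ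
  obtain ⟨c₀, c₁, hc0, hc01, hb⟩ := hγ.bounds
  have hfs := test_memHs hn hs0 hs1 hf
  set F : Lp ℝ 2 (volume : Measure (E n × E n)) := (gg_memLp hγ hfs).toLp _ with hF
  have hFc : (F : E n × E n → ℝ) =ᵐ[volume] gg s γ f := (gg_memLp hγ hfs).coeFn_toLp
  set K := (SS s γ Ω).topologicalClosure with hK
  have : CompleteSpace K := (SS s γ Ω).isClosed_topologicalClosure.completeSpace_coe
  set v := K.starProjection (-F) with hv
  have hvK : v ∈ K := K.starProjection_apply_mem _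
  obtain ⟨vk, hvk, hlim⟩ := mem_closure_iff_seq_limit.1 (show v ∈ closure _ from hvK)
  choose φ hφ hφv using hvk
  -- the key estimate
  have hkey : ∀ k m, κ * ∫ x, (φ k x - φ m x) ^ 2 ≤ c₀⁻¹ * ‖vk k - vk m‖ ^ 2 := by
    intro k m
    have ht := (hφ k).sub (hφ m)
    have hts := test_memHs hn hs0 hs1 ht
    refine (hP _ hts (test_zero ht)).trans ((gag_le hc0 hγ hb hts).trans ?_)
    rw [norm_sq_eq]
    refine le_of_eq ?_
    congr 1
    refine integral_congr_ae ?_
    filter_upwards [Lp.coeFn_sub (vk k) (vk m), hφv k, hφv m] with p h1 h2 h3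
    rw [h1, Pi.sub_apply, h2, h3]
    simp only [gg]
    ring
  have hφL : ∀ k, MemLp (φ k) 2 := fun k => (test_memHs hn hs0 hs1 (hφ k)).memLp
  set a : ℕ → Lp ℝ 2 (volume : Measure (E n)) := fun k => (hφL k).toLp _ with ha
  have hac : ∀ k, (a k : E n → ℝ) =ᵐ[volume] φ k := fun k => (hφL k).coeFn_toLp
  have hdiff : ∀ k m, ‖a k - a m‖ ^ 2 = ∫ x, (φ k x - φ m x) ^ 2 := by
    intro k m
    rw [norm_sq_eq]
    refine integral_congr_ae ?_
    filter_upwards [Lp.coeFn_sub (a k) (a m), hac k, hac m] with p h1 h2 h3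
    rw [h1, Pi.sub_apply, h2, h3]
  have hcauchy : CauchySeq a := by
    have hvc : CauchySeq vk := hlim.cauchySeq
    rw [Metric.cauchySeq_iff] at hvc ⊢
    intro ε hε
    obtain ⟨N, hN⟩ := hvc (ε * √(κ * c₀)) (by positivity)
    refine ⟨N, fun m hm k hk => ?_⟩
    have h1 := hN m hm k hk
    rw [dist_eq_norm] at h1 ⊢
    have h2 := hkey m k
    rw [← hdiff] at h2
    have h3 : ‖vk m - vk k‖ ^ 2 < ε ^ 2 * (κ * c₀) := by
      calc ‖vk m - vk k‖ ^ 2 < (ε * √(κ * c₀)) ^ 2 := by gcongr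
        _ = _ := by rw [mul_pow, Real.sq_sqrt (by positivity)]
    have h4 : ‖a m - a k‖ ^ 2 < ε ^ 2 := by
      have h5 : κ * ‖a m - a k‖ ^ 2 < κ * ε ^ 2 := by
        calc κ * ‖a m - a k‖ ^ 2 ≤ c₀⁻¹ * ‖vk m - vk k‖ ^ 2 := h2
          _ < c₀⁻¹ * (ε ^ 2 * (κ * c₀)) := by gcongr
          _ = κ * ε ^ 2 := by field_simp
      exact lt_of_mul_lt_mul_left h5 hκ.le
    exact lt_of_pow_lt_pow_left₀ 2 hε.le h4
  obtain ⟨wl, hwl⟩ := cauchySeq_tendsto_of_complete hcauchy
  set w : E n → ℝ := fun x => wl x with hw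
  have hwL : MemLp w 2 := Lp.memLp wl
  -- subsequences
  obtain ⟨ns, hns, hae⟩ := (tendstoInMeasure_of_tendsto_Lp hwl).exists_seq_tendsto_ae
  have hvns : Tendsto (fun k => vk (ns k)) atTop (𝓝 v) := hlim.comp hns.tendsto_atTop
  obtain ⟨ms, hms, hae2⟩ := (tendstoInMeasure_of_tendsto_Lp hvns).exists_seq_tendsto_ae
  have hae' : ∀ᵐ x, Tendsto (fun k => φ (ns (ms k)) x) atTop (𝓝 (w x)) := by
    filter_upwards [hae, ae_all_iff.2 hac] with x h1 h2
    have := h1.comp hms.tendsto_atTop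
    refine this.congr fun k => ?_
    exact h2 _
  have hvg : (v : E n × E n → ℝ) =ᵐ[volume] gg s γ w := by
    filter_upwards [hae2, ae_all_iff.2 hφv, ae_fst hae', ae_snd hae'] with p h1 h2 h3 h4
    have h5 : Tendsto (fun k => gg s γ (φ (ns (ms k))) p) atTop (𝓝 (gg s γ w p)) :=
      (h3.sub h4).const_mul _
    refine tendsto_nhds_unique (h1.congr fun k => ?_) h5
    exact h2 _
  have hwg : MemLp (gg s γ w) 2 (volume : Measure (E n × E n)) :=
    (memLp_congr_ae hvg).1 (Lp.memLp v)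
  have hws : MemHs s w := memHs_of_gg hγ hwL hwg
  -- membership in `H̃`
  have htilde : MemTilde s Ω w := by
    refine ⟨hws, φ, hφ, ?_⟩
    have h1 : ∀ k, hsNormSq s (fun x => w x - φ k x) ≤ ‖wl - a k‖ ^ 2 + c₀⁻¹ * ‖v - vk k‖ ^ 2 := by
      intro k
      have hd := hws.sub (test_memHs hn hs0 hs1 (hφ k))
      unfold hsNormSq
      gcongr
      · rw [norm_sq_eq]
        refine le_of_eq (integral_congr_ae ?_)
        filter_upwards [Lp.coeFn_sub wl (a k), hac k] with x e1 e2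
        rw [e1, Pi.sub_apply, e2]
      · refine (gag_le hc0 hγ hb hd).trans (le_of_eq ?_)
        rw [norm_sq_eq]
        congr 1
        refine integral_congr_ae ?_
        filter_upwards [Lp.coeFn_sub v (vk k), hvg, hφv k] with p e1 e2 e3
        rw [e1, Pi.sub_apply, e2, e3]
        simp only [gg]
        ring
    have h2 : Tendsto (fun k => ‖wl - a k‖ ^ 2 + c₀⁻¹ * ‖v - vk k‖ ^ 2) atTop
        (𝓝 (‖wl - wl‖ ^ 2 + c₀⁻¹ * ‖v - v‖ ^ 2)) :=
      ((tendsto_const_nhds.sub hwl).norm.pow 2).add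
        (((tendsto_const_nhds.sub hlim).norm.pow 2).const_mul _)
    simp only [sub_self, norm_zero, ne_eq, OfNat.ofNat_ne_zero, not_false_eq_true, zero_pow,
      mul_zero, add_zero] at h2
    exact squeeze_zero (fun k => hs_nonneg _) h1 h2
  -- the solution
  have hneg : MemHs s fun x => (0 : ℝ) - w x :=
    (test_memHs hn hs0 hs1 (IsTest.zero (U := (univ : Set (E n))))).sub hws
  have hus : MemHs s fun x => f x + w x := by
    have := hfs.sub hneg
    refine cast ?_ this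
    congr 1
    funext x
    ring
  refine ⟨fun x => f x + w x, hus, ?_, fun ψ hψ => ?_⟩
  · have : (fun x => f x + w x - f x) = w := by funext x; ring
    rw [this]
    exact htilde
  · have hψs := test_memHs hn hs0 hs1 hψ
    set P : Lp ℝ 2 (volume : Measure (E n × E n)) := (gg_memLp hγ hψs).toLp _ with hP'
    have hPc : (P : E n × E n → ℝ) =ᵐ[volume] gg s γ ψ := (gg_memLp hγ hψs).coeFn_toLp
    have hPK : P ∈ K := (SS s γ Ω).le_topologicalClosure ⟨ψ, hψ, hPc⟩
    have h1 := K.starProjection_inner_eq_zero (-F) P hPK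
    rw [← hv, L2.inner_def] at h1
    have h2 : ∫ p, inner ℝ (((-F - v : Lp ℝ 2 (volume : Measure (E n × E n))) : E n × E n → ℝ) p)
        ((P : E n × E n → ℝ) p) =
        -∫ p : E n × E n, wt s γ p * ((f p.1 + w p.1 - (f p.2 + w p.2)) * (ψ p.1 - ψ p.2)) := by
      rw [← integral_neg]
      refine integral_congr_ae ?_
      filter_upwards [Lp.coeFn_sub (-F) v, Lp.coeFn_neg F, hFc, hvg, hPc] with p e1 e2 e3 e4 e5
      rw [e1, Pi.sub_apply, e2, Pi.neg_apply, e3, e4, e5, ← gg_mul γ (fun x => f x + w x) ψ p]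
      simp only [RCLike.inner_apply, conj_trivial, gg]
      ring
    rw [h2] at h1
    rw [B_eq, neg_eq_zero.1 h1, mul_zero]

/-- Uniqueness of solutions. -/
lemma sol_unique (hn : 1 ≤ n) (hs0 : 0 < s) (hs1 : s < 1) {Ω : Set (E n)} (hΩo : IsOpen Ω)
    (hΩ : BoundedInOneDirection Ω) {γ f : E n → ℝ} (hγ : UniformlyElliptic γ) {U : Set (E n)}
    (hf : IsTest U f) {u v : E n → ℝ} (hu : IsSol s Ω γ f u) (hv : IsSol s Ω γ f v) :
    u =ᵐ[volume] v := by
  obtain ⟨κ, hκ, hP⟩ := poincare (s := s) hn hs0 hΩ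
  obtain ⟨c₀, c₁, hc0, hc01, hb⟩ := hγ.bounds
  have hC := Cns_pos hn hs0 hs1
  have hds := hu.memHs.sub hv.memHs
  have hfs := test_memHs hn hs0 hs1 hf
  have horth : ∀ φ, IsTest Ω φ → B s γ (fun x => u x - v x) φ = 0 := by
    intro φ hφ
    have h1 := B_sub_left hγ (test_memHs hn hs0 hs1 hφ) hu.memHs hv.memHs
    rw [h1, hu.weak φ hφ, hv.weak φ hφ, sub_zero]
  have h1 := tilde_orth hn hs0 hs1 hγ hds horth hu.exterior
  have h2 := tilde_orth hn hs0 hs1 hγ hds horth hv.exterior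
  have h3 : B s γ (fun x => u x - v x) (fun x => u x - v x) = 0 := by
    have h4 := B_sub_right hγ hds (hu.memHs.sub hfs) (hv.memHs.sub hfs)
    rw [h1, h2, sub_zero] at h4
    rw [← h4]
    congr 1
    funext x
    ring
  have h5 : ∫ p : E n × E n, gg s γ (fun x => u x - v x) p ^ 2 = 0 := by
    rw [B_eq] at h3
    have h6 := (mul_eq_zero.1 h3).resolve_left (by positivity)
    rw [← h6]
    refine integral_congr_ae (Eventually.of_forall fun p => ?_)
    simp only
    rw [sq, gg_mul]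
  have hz : ∀ᵐ x, x ∉ Ω → (fun x => u x - v x) x = 0 := by
    filter_upwards [tilde_zero hn hs0 hs1 hΩo hu.exterior,
      tilde_zero hn hs0 hs1 hΩo hv.exterior] with x e1 e2 hx
    have e3 : u x - f x = 0 := e1 hx
    have e4 : v x - f x = 0 := e2 hx
    show u x - v x = 0
    linarith
  have h7 := (hP _ hds hz).trans (gag_le hc0 hγ hb hds)
  rw [h5, mul_zero] at h7
  have h8 : 0 ≤ ∫ x, (u x - v x) ^ 2 := integral_nonneg fun x => sq_nonneg _
  have h9 : ∫ x, (u x - v x) ^ 2 = 0 := by nlinarith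
  rw [integral_eq_zero_iff_of_nonneg (fun x => sq_nonneg _) hds.memLp.integrable_sq] at h9
  filter_upwards [h9] with x hx
  have : u x - v x = 0 := by simpa using hx
  linarith

end Existence

/-- **Exterior determination for bounded measurable fractional conductivities.**

Let `1 ≤ n`, `0 < s < 1`, `s < n/2`, let `Ω ⊆ ℝⁿ` be open and bounded in one direction, let
`W ⊆ ℝⁿ ∖ closure Ω` be open.

(1) For every uniformly elliptic `γ ∈ L^∞` and every `f ∈ C_c^∞(ℝⁿ ∖ closure Ω)` the weak solution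
`u_f` exists and is unique (as an element of `L²`), so that the DN map is well defined.

(2) If `γ₁, γ₂ ∈ L^∞` are uniformly elliptic and `⟨Λ_{γ₁} f, g⟩ = ⟨Λ_{γ₂} f, g⟩` for all
`f, g ∈ C_c^∞(W)`, then `γ₁ = γ₂` almost everywhere in `W`. -/
theorem result (n : ℕ) (hn : 1 ≤ n) (s : ℝ) (hs0 : 0 < s) (hs1 : s < 1) (_hsn : s < n / 2)
    (Ω : Set (E n)) (hΩ : IsOpen Ω) (hΩb : BoundedInOneDirection Ω) :
    (∀ γ : E n → ℝ, UniformlyElliptic γ → ∀ f : E n → ℝ, IsTest (closure Ω)ᶜ f →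
      (∃ u, IsSol s Ω γ f u) ∧
        ∀ u v, IsSol s Ω γ f u → IsSol s Ω γ f v → u =ᵐ[volume] v) ∧
    (∀ W : Set (E n), IsOpen W → W ⊆ (closure Ω)ᶜ →
      ∀ γ₁ γ₂ : E n → ℝ, UniformlyElliptic γ₁ → UniformlyElliptic γ₂ →
      (∀ f, IsTest W f → ∀ u₁ u₂, IsSol s Ω γ₁ f u₁ → IsSol s Ω γ₂ f u₂ →
        ∀ g, IsTest W g → B s γ₁ u₁ g = B s γ₂ u₂ g) →
      ∀ᵐ x, x ∈ W → γ₁ x = γ₂ x) := by
  refine ⟨fun γ hγ f hf => ⟨exists_sol hn hs0 hs1 hΩb hγ hf, fun u v hu hv =>
    sol_unique hn hs0 hs1 hΩ hΩb hγ hf hu hv⟩, fun W hW hWΩ γ₁ γ₂ h₁ h₂ hDN => ?_⟩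
  obtain ⟨f, hf, hf1, hfi, hfpos⟩ := exists_bump (n := n) (s := s) hn hs0 hs1
  filter_upwards [ae_limit hn h₁ hfi, ae_limit hn h₂ hfi] with x₀ hl1 hl2 hx₀
  obtain ⟨r, hr, hball⟩ := Metric.isOpen_iff.1 hW x₀ hx₀
  set δ : ℝ := r / 2 with hδ
  have hδ0 : 0 < δ := by positivity
  have hsep : ∀ y ∈ Ω, 2 * δ ≤ ‖x₀ - y‖ := by
    intro y hy
    by_contra h
    push Not at h
    have : y ∈ ball x₀ r := by
      rw [mem_ball, dist_eq_norm, norm_sub_rev]
      linarith
    exact hWΩ (hball this) (subset_closure hy)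
  have hdelta : Tendsto (fun j : ℕ => 1 / ((j : ℝ) + 1)) atTop (𝓝 0) :=
    tendsto_one_div_add_atTop_nhds_zero_nat
  have htest : ∀ᶠ j : ℕ in atTop, IsTest W (fe n s f x₀ (1 / ((j : ℝ) + 1))) := by
    filter_upwards [hdelta.eventually (gt_mem_nhds hδ0)] with j hj
    refine (isTest_fe hf x₀ (by positivity) hf1 ?_).1
    exact (closedBall_subset_ball (by linarith)).trans hball
  have hex1 : ∀ j : ℕ, ∃ u, IsSol s Ω γ₁ (fe n s f x₀ (1 / ((j : ℝ) + 1))) u := fun j =>
    exists_sol hn hs0 hs1 hΩb h₁ (isTest_fe hf (W := univ) x₀ (by positivity) hf1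
      (subset_univ _)).1
  have hex2 : ∀ j : ℕ, ∃ u, IsSol s Ω γ₂ (fe n s f x₀ (1 / ((j : ℝ) + 1))) u := fun j =>
    exists_sol hn hs0 hs1 hΩb h₂ (isTest_fe hf (W := univ) x₀ (by positivity) hf1
      (subset_univ _)).1
  choose u₁ hu₁ using hex1
  choose u₂ hu₂ using hex2
  have t1 := dn_limit hn hs0 hs1 hΩ h₁ hf hf1 hδ0 hsep hl1 (Eventually.of_forall hu₁)
  have t2 := dn_limit hn hs0 hs1 hΩ h₂ hf hf1 hδ0 hsep hl2 (Eventually.of_forall hu₂)
  have t3 := t1.congr' (htest.mono fun j hj => hDN _ hj _ _ (hu₁ j) (hu₂ j) _ hj)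
  have t4 := tendsto_nhds_unique t3 t2
  have hC := Cns_pos hn hs0 hs1
  have t5 := mul_left_cancel₀ (by positivity : Cns n s / 2 ≠ 0) t4
  exact mul_right_cancel₀ hfpos.ne' t5

end Pool.Agent.Results.MP_cfec03_an.ExteriorDetermination
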